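import Mathlib

/-!
# Taylor models in two real variables `0 ≤ x ≤ 1/4`, `0 ≤ y ≤ 1/8`

`P2`: lists of terms `c x^i y^k`, `c` rational. A model is a pair p, e; it approximates `f` if
`|f - ev p| ≤ ev e`. The polynomial `p` has degree at most `9`, the terms of the error are reduced to degree at
most `10` (by `x ≤ 1/4`, `y ≤ 1/8`). Everything is computed by `decide +kernel`.
-/

set_option autoImplicit false

namespace Pool.Agent.Helper99.SH

/-- exponents of a monomial -/
abbrev Ix := ℕ × ℕ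
/-- polynomials in two variables -/
abbrev P2 := List (Ix × ℚ)

/-- value of a monomial -/
noncomputable def mv (x y : ℝ) (k : Ix) : ℝ := x ^ k.1 * y ^ k.2

/-- value of a polynomial -/
noncomputable def ev (x y : ℝ) : P2 → ℝ
  | [] => 0
  | t :: p => (t.2 : ℝ) * mv x y t.1 + ev x y p

@[simp] theorem ev_nil (x y : ℝ) : ev x y [] = 0 := rfl
@[simp] theorem ev_cons (x y : ℝ) (t : Ix × ℚ) (p : P2) :
    ev x y (t :: p) = (t.2 : ℝ) * mv x y t.1 + ev x y p := rfl

theorem mv_mul (x y : ℝ) (k l : Ix) : mv x y (k.1 + l.1, k.2 + l.2) = mv x y k * mv x y l := by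
  unfold mv
  simp only [pow_add]
  ring

theorem mv_nonneg {x y : ℝ} (hx : 0 ≤ x) (hy : 0 ≤ y) (k : Ix) : 0 ≤ mv x y k := by
  unfold mv
  positivity

/-- insertion of a term -/
def ins (k : Ix) (c : ℚ) : P2 → P2
  | [] => [(k, c)]
  | t :: p => if t.1.1 = k.1 ∧ t.1.2 = k.2 then (k, c + t.2) :: p else t :: ins k c p

theorem ev_ins (x y : ℝ) (k : Ix) (c : ℚ) : ∀ p : P2,
    ev x y (ins k c p) = (c : ℝ) * mv x y k + ev x y p
  | [] => by simp [ins]
  | t :: p => by
    unfold ins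
    split_ifs with h
    · have h' : t.1 = k := Prod.ext h.1 h.2
      rw [ev_cons, ev_cons, h']
      push_cast
      ring
    · rw [ev_cons, ev_cons, ev_ins x y k c p]
      ring

/-- the sum of the absolute values of the terms -/
noncomputable def av (x y : ℝ) : P2 → ℝ
  | [] => 0
  | t :: p => |(t.2 : ℝ)| * mv x y t.1 + av x y p

@[simp] theorem av_nil (x y : ℝ) : av x y [] = 0 := rfl
@[simp] theorem av_cons (x y : ℝ) (t : Ix × ℚ) (p : P2) :
    av x y (t :: p) = |(t.2 : ℝ)| * mv x y t.1 + av x y p := rfl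

theorem av_nonneg {x y : ℝ} (hx : 0 ≤ x) (hy : 0 ≤ y) : ∀ p : P2, 0 ≤ av x y p
  | [] => le_rfl
  | t :: p => by
    rw [av_cons]
    have := av_nonneg hx hy p
    have := mv_nonneg hx hy t.1
    positivity

theorem abs_ev_le {x y : ℝ} (hx : 0 ≤ x) (hy : 0 ≤ y) : ∀ p : P2, |ev x y p| ≤ av x y p
  | [] => by simp
  | t :: p => by
    rw [ev_cons, av_cons]
    refine (abs_add_le _ _).trans ?_
    rw [abs_mul, abs_of_nonneg (mv_nonneg hx hy t.1)]
    have := abs_ev_le hx hy p
    linarith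

/-- the domain -/
structure Dm (x y : ℝ) : Prop where
  x0 : 0 ≤ x
  x1 : x ≤ 1 / 4
  y0 : 0 ≤ y
  y1 : y ≤ 1 / 8

/-- reduction of an error monomial: exponents and the power of `2` in the denominator -/
def rdx : ℕ → ℕ → ℕ → ℕ → ℕ × ℕ × ℕ
  | 0, i, k, e => (i, k, e)
  | f + 1, i, k, e => if k ≤ i then rdx f (i - 1) k (e + 2) else rdx f i (k - 1) (e + 3)

theorem rdx_le {x y : ℝ} (h : Dm x y) : ∀ (f i k e : ℕ), f ≤ i + k →
    mv x y (i, k) / 2 ^ e ≤ mv x y ((rdx f i k e).1, (rdx f i k e).2.1) / 2 ^ (rdx f i k e).2.2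
  | 0, i, k, e, _ => le_rfl
  | f + 1, i, k, e, hf => by
    unfold rdx
    have hx := h.x0
    have hy := h.y0
    split_ifs with h2
    · have h3 := rdx_le h f (i - 1) k (e + 2) (by omega)
      refine le_trans ?_ h3
      have hi : i = (i - 1) + 1 := by omega
      unfold mv
      simp only
      rw [show x ^ i = x ^ (i - 1) * x by rw [← pow_succ, ← hi], pow_add, div_le_div_iff₀ (by positivity)
        (by positivity)]
      have h5 : 0 ≤ (x ^ (i - 1) * y ^ k * 2 ^ e) * (1 / 4 - x) :=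
        mul_nonneg (by positivity) (by linarith [h.x1])
      nlinarith
    · have h3 := rdx_le h f i (k - 1) (e + 3) (by omega)
      refine le_trans ?_ h3
      have hk : k = (k - 1) + 1 := by omega
      unfold mv
      simp only
      rw [show y ^ k = y ^ (k - 1) * y by rw [← pow_succ, ← hk], pow_add, div_le_div_iff₀ (by positivity)
        (by positivity)]
      have h5 : 0 ≤ (x ^ i * y ^ (k - 1) * 2 ^ e) * (1 / 8 - y) :=
        mul_nonneg (by positivity) (by linarith [h.y1])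
      nlinarith

/-- the absolute value of a rational number -/
def qa (c : ℚ) : ℚ := ⟨(c.num.natAbs : ℤ), c.den, c.den_nz, by rw [Int.natAbs_natCast]; exact c.reduced⟩

theorem qa_eq (c : ℚ) : qa c = |c| := by
  rw [Rat.abs_def, ← Rat.num_divInt_den (qa c)]
  rfl

/-- adds the error term `|c| x^i y^k` -/
def er (i k : ℕ) (c : ℚ) (e : P2) : P2 :=
  if i + k ≤ 10 then ins (i, k) (qa c) e
  else
    let r := rdx (i + k - 10) i k 0
    ins (r.1, r.2.1) (qa c / ((2 ^ r.2.2 : ℕ) : ℚ)) e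

theorem er_le {x y : ℝ} (h : Dm x y) (i k : ℕ) (c : ℚ) (e : P2) :
    |(c : ℝ)| * mv x y (i, k) + ev x y e ≤ ev x y (er i k c e) := by
  unfold er
  split_ifs with h0
  · rw [ev_ins, qa_eq]
    push_cast
    exact le_rfl
  · simp only
    rw [ev_ins, qa_eq]
    have h1 := rdx_le h (i + k - 10) i k 0 (by omega)
    rw [pow_zero, div_one] at h1
    have h2 := mul_le_mul_of_nonneg_left h1 (abs_nonneg (c : ℝ))
    push_cast
    have e1 : |(c : ℝ)| / 2 ^ (rdx (i + k - 10) i k 0).2.2 *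
        mv x y ((rdx (i + k - 10) i k 0).1, (rdx (i + k - 10) i k 0).2.1) =
        |(c : ℝ)| * (mv x y ((rdx (i + k - 10) i k 0).1, (rdx (i + k - 10) i k 0).2.1) /
          2 ^ (rdx (i + k - 10) i k 0).2.2) := by ring
    rw [e1]
    linarith

/-- a model -/
structure TM where
  p : P2
  e : P2
deriving DecidableEq

/-- `T` is a model of `f` -/
def Ap (x y f : ℝ) (T : TM) : Prop := |f - ev x y T.p| ≤ ev x y T.e

theorem Ap.e0 {x y f : ℝ} {T : TM} (h : Ap x y f T) : 0 ≤ ev x y T.e := (abs_nonneg _).trans h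

/-- adds a term -/
def put (i k : ℕ) (c : ℚ) (T : TM) : TM :=
  if i + k ≤ 9 then ⟨ins (i, k) c T.p, T.e⟩ else ⟨T.p, er i k c T.e⟩

theorem Ap_put {x y f : ℝ} (hd : Dm x y) {T : TM} (h : Ap x y f T) (i k : ℕ) (c : ℚ) :
    Ap x y ((c : ℝ) * mv x y (i, k) + f) (put i k c T) := by
  unfold Ap at h ⊢
  unfold put
  split_ifs with h1
  · simp only
    rw [ev_ins]
    have e : (c : ℝ) * mv x y (i, k) + f - ((c : ℝ) * mv x y (i, k) + ev x y T.p) = f - ev x y T.p := by
      ring
    rw [e]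
    exact h
  · simp only
    refine le_trans ?_ (er_le hd i k c T.e)
    have e : (c : ℝ) * mv x y (i, k) + f - ev x y T.p = (c : ℝ) * mv x y (i, k) + (f - ev x y T.p) := by
      ring
    rw [e]
    refine (abs_add_le _ _).trans ?_
    rw [abs_mul, abs_of_nonneg (mv_nonneg hd.x0 hd.y0 (i, k))]
    linarith

/-- adds the product of a term and a polynomial -/
def mu1 (i k : ℕ) (c : ℚ) : P2 → TM → TM
  | [], T => T
  | t :: q, T => mu1 i k c q (put (i + t.1.1) (k + t.1.2) (c * t.2) T)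

theorem Ap_mu1 {x y : ℝ} (hd : Dm x y) (i k : ℕ) (c : ℚ) : ∀ (q : P2) (T : TM) (f : ℝ), Ap x y f T →
    Ap x y ((c : ℝ) * mv x y (i, k) * ev x y q + f) (mu1 i k c q T)
  | [], T, f, h => by
    unfold mu1
    rw [ev_nil, mul_zero, zero_add]
    exact h
  | t :: q, T, f, h => by
    unfold mu1
    have h1 := Ap_mu1 hd i k c q _ _ (Ap_put hd h (i + t.1.1) (k + t.1.2) (c * t.2))
    have e : (c : ℝ) * mv x y (i, k) * ev x y (t :: q) + f =
        (c : ℝ) * mv x y (i, k) * ev x y q + (((c * t.2 : ℚ) : ℝ) * mv x y (i + t.1.1, k + t.1.2) + f) := by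
      rw [ev_cons]
      have h2 := mv_mul x y (i, k) t.1
      simp only at h2
      rw [h2]
      push_cast
      ring
    rw [e]
    exact h1

/-- adds the product of two polynomials -/
def mup : P2 → P2 → TM → TM
  | [], _, T => T
  | t :: p, q, T => mup p q (mu1 t.1.1 t.1.2 t.2 q T)

theorem Ap_mup {x y : ℝ} (hd : Dm x y) : ∀ (p q : P2) (T : TM) (f : ℝ), Ap x y f T →
    Ap x y (ev x y p * ev x y q + f) (mup p q T)
  | [], q, T, f, h => by
    unfold mup
    rw [ev_nil, zero_mul, zero_add]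
    exact h
  | t :: p, q, T, f, h => by
    unfold mup
    have h1 := Ap_mup hd p q _ _ (Ap_mu1 hd t.1.1 t.1.2 t.2 q T f h)
    have e : ev x y (t :: p) * ev x y q + f =
        ev x y p * ev x y q + ((t.2 : ℝ) * mv x y (t.1.1, t.1.2) * ev x y q + f) := by
      rw [ev_cons]
      ring
    rw [e]
    exact h1

/-- adds the product of absolute values to an error -/
def me1 (i k : ℕ) (c : ℚ) : P2 → P2 → P2
  | [], e => e
  | t :: q, e => me1 i k c q (er (i + t.1.1) (k + t.1.2) (c * t.2) e)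

theorem me1_le {x y : ℝ} (hd : Dm x y) (i k : ℕ) (c : ℚ) : ∀ (q e : P2),
    |(c : ℝ)| * mv x y (i, k) * av x y q + ev x y e ≤ ev x y (me1 i k c q e)
  | [], e => by
    unfold me1
    rw [av_nil, mul_zero, zero_add]
  | t :: q, e => by
    unfold me1
    refine le_trans ?_ (me1_le hd i k c q _)
    have h1 := er_le hd (i + t.1.1) (k + t.1.2) (c * t.2) e
    have h2 := mv_mul x y (i, k) t.1
    simp only at h2
    rw [h2] at h1
    push_cast at h1
    rw [abs_mul] at h1
    rw [av_cons]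
    nlinarith

/-- adds the product of absolute values to an error -/
def mep : P2 → P2 → P2 → P2
  | [], _, e => e
  | t :: p, q, e => mep p q (me1 t.1.1 t.1.2 t.2 q e)

theorem mep_le {x y : ℝ} (hd : Dm x y) : ∀ (p q e : P2),
    av x y p * av x y q + ev x y e ≤ ev x y (mep p q e)
  | [], q, e => by
    unfold mep
    rw [av_nil, zero_mul, zero_add]
  | t :: p, q, e => by
    unfold mep
    refine le_trans ?_ (mep_le hd p q _)
    have h1 := me1_le hd t.1.1 t.1.2 t.2 q e
    rw [av_cons]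
    nlinarith

/-- `U + S * T` -/
def mul (S T U : TM) : TM :=
  let V := mup S.p T.p U
  ⟨V.p, mep S.e T.e (mep S.e T.p (mep S.p T.e V.e))⟩

theorem ev_le_av {x y : ℝ} (hd : Dm x y) (p : P2) : ev x y p ≤ av x y p :=
  (le_abs_self _).trans (abs_ev_le hd.x0 hd.y0 p)

theorem Ap_mul {x y f g h : ℝ} (hd : Dm x y) {S T U : TM} (hS : Ap x y f S) (hT : Ap x y g T)
    (hU : Ap x y h U) : Ap x y (f * g + h) (mul S T U) := by
  have h1 := Ap_mup hd S.p T.p U h hU
  unfold Ap at hS hT h1 ⊢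
  unfold mul
  simp only
  have a1 := mep_le hd S.p T.e (mup S.p T.p U).e
  have a2 := mep_le hd S.e T.p (mep S.p T.e (mup S.p T.p U).e)
  have a3 := mep_le hd S.e T.e (mep S.e T.p (mep S.p T.e (mup S.p T.p U).e))
  have b1 := abs_ev_le hd.x0 hd.y0 S.p
  have b2 := abs_ev_le hd.x0 hd.y0 T.p
  have b3 := ev_le_av hd S.e
  have b4 := ev_le_av hd T.e
  have c1 := av_nonneg hd.x0 hd.y0 S.p
  have c2 := av_nonneg hd.x0 hd.y0 T.p
  have c3 := av_nonneg hd.x0 hd.y0 S.e
  have c4 := av_nonneg hd.x0 hd.y0 T.e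
  set P := ev x y S.p
  set Q := ev x y T.p
  have e : f * g + h - ev x y (mup S.p T.p U).p =
      P * (g - Q) + (f - P) * Q + (f - P) * (g - Q) + (P * Q + h - ev x y (mup S.p T.p U).p) := by
    ring
  rw [e]
  have d1 : |P * (g - Q)| ≤ av x y S.p * av x y T.e := by
    rw [abs_mul]
    exact mul_le_mul b1 (hT.trans b4) (abs_nonneg _) c1
  have d2 : |(f - P) * Q| ≤ av x y S.e * av x y T.p := by
    rw [abs_mul]
    exact mul_le_mul (hS.trans b3) b2 (abs_nonneg _) c3
  have d3 : |(f - P) * (g - Q)| ≤ av x y S.e * av x y T.e := by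
    rw [abs_mul]
    exact mul_le_mul (hS.trans b3) (hT.trans b4) (abs_nonneg _) c3
  have t1 := abs_add_le (P * (g - Q) + (f - P) * Q + (f - P) * (g - Q))
    (P * Q + h - ev x y (mup S.p T.p U).p)
  have t2 := abs_add_le (P * (g - Q) + (f - P) * Q) ((f - P) * (g - Q))
  have t3 := abs_add_le (P * (g - Q)) ((f - P) * Q)
  linarith

end Pool.Agent.Helper99.SH
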