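import Pool.Agent.Helper99.SH.TM
import Pool.Agent.Helper31.RC.Bes2

/-!
# Models of Bessel functions, cosine and sine
-/

set_option autoImplicit false

namespace Pool.Agent.Helper99.SH

open Helper31.Bes (J)

/-- Taylor polynomial of the Bessel function for all real arguments -/
theorem J_tay (n M : ℕ) (z : ℝ) : |J (n : ℤ) z - Helper31.Bes.S n M z| ≤
    |z / 2| ^ (2 * M + n) / ((M.factorial : ℝ) * ((M + n).factorial : ℝ)) := by
  -- nonnegative arguments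
  have key : ∀ w : ℝ, 0 ≤ w → |J (n : ℤ) w - Helper31.Bes.S n M w| ≤
      |w / 2| ^ (2 * M + n) / ((M.factorial : ℝ) * ((M + n).factorial : ℝ)) := by
    intro w hw
    rcases Nat.eq_zero_or_pos M with hM | hM
    · subst hM
      have h := Helper31.Bes.J1_nat n w
      unfold Helper31.Bes.S
      rw [Finset.sum_range_zero, sub_zero]
      simpa [abs_div] using h
    · obtain ⟨r, rfl⟩ : ∃ r, M = r + 1 := ⟨M - 1, by omega⟩
      have h1 := Helper31.Bes.taylor r n w hw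
      have h2 := Helper31.Bes.taylor (r + 1) n w hw
      have h3 : Helper31.Bes.S n (r + 1 + 1) w = Helper31.Bes.S n (r + 1) w +
          (-1 : ℝ) ^ (r + 1) * (w / 2) ^ (2 * (r + 1) + n) /
            (((r + 1).factorial : ℝ) * ((r + 1 + n).factorial : ℝ)) := by
        unfold Helper31.Bes.S
        rw [Finset.sum_range_succ]
      have h4 : |w / 2| = w / 2 := abs_of_nonneg (by linarith)
      rw [h4]
      set t := (w / 2) ^ (2 * (r + 1) + n) / (((r + 1).factorial : ℝ) * ((r + 1 + n).factorial : ℝ)) with ht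
      rw [mul_div_assoc] at h3
      rw [← ht] at h3
      rw [h3] at h2
      set D := J (n : ℤ) w - Helper31.Bes.S n (r + 1) w with hD
      rcases neg_one_pow_eq_or ℝ (r + 1) with h5 | h5
      · have h6 : (-1 : ℝ) ^ (r + 1 + 1) = -1 := by rw [pow_succ, h5]; ring
        rw [h5] at h1 h2
        rw [h6] at h2
        rw [abs_le]
        constructor <;> linarith
      · have h6 : (-1 : ℝ) ^ (r + 1 + 1) = 1 := by rw [pow_succ, h5]; ring
        rw [h5] at h1 h2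
        rw [h6] at h2
        rw [abs_le]
        constructor <;> linarith
  rcases le_total 0 z with hz | hz
  · exact key z hz
  · have h1 := key (-z) (by linarith)
    have h2 : J (n : ℤ) z = (-1 : ℝ) ^ n * J (n : ℤ) (-z) := by
      have a := Helper31.Bes.J_neg_arg (n : ℤ) (-z)
      rw [neg_neg] at a
      rw [a, Helper31.Bes.J_neg_ord]
      simp
    have h3 : Helper31.Bes.S n M z = (-1 : ℝ) ^ n * Helper31.Bes.S n M (-z) := by
      unfold Helper31.Bes.S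
      rw [Finset.mul_sum]
      refine Finset.sum_congr rfl fun m _ => ?_
      have : (z / 2) ^ (2 * m + n) = (-1 : ℝ) ^ n * (-z / 2) ^ (2 * m + n) := by
        rw [show -z / 2 = -(z / 2) by ring, neg_pow (z / 2), pow_add (-1 : ℝ), pow_mul]
        have h7 : ((-1 : ℝ) ^ 2) ^ m = 1 := by norm_num
        have h8 : (-1 : ℝ) ^ n * (-1 : ℝ) ^ n = 1 := by
          rw [← mul_pow]; norm_num
        rw [h7, one_mul, ← mul_assoc, h8, one_mul]
      rw [this]
      ring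
    rw [h2, h3, ← mul_sub, abs_mul, abs_pow, abs_neg, abs_one, one_pow, one_mul]
    refine h1.trans (le_of_eq ?_)
    rw [show -z / 2 = -(z / 2) by ring, abs_neg]

/-- a Taylor coefficient -/
def tc (n : ℕ) (s : ℚ) (i : ℕ) : ℚ := (-1) ^ i * s ^ (2 * i + n) / ((i.factorial : ℚ) * ((i + n).factorial : ℚ))

/-- model of the Taylor polynomial of `J_n (2 s x)` with `M` terms -/
def js (n : ℕ) (s : ℚ) : ℕ → TM
  | 0 => ⟨[], []⟩
  | M + 1 => put (2 * M + n) 0 (tc n s M) (js n s M)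

theorem Ap_zero (x y : ℝ) : Ap x y 0 ⟨[], []⟩ := by
  unfold Ap
  simp

theorem Ap_js {x y : ℝ} (hd : Dm x y) (n : ℕ) (s : ℚ) : ∀ M : ℕ,
    Ap x y (Helper31.Bes.S n M (2 * (s : ℝ) * x)) (js n s M)
  | 0 => by
    unfold js Helper31.Bes.S
    rw [Finset.sum_range_zero]
    exact Ap_zero x y
  | M + 1 => by
    have h := Ap_put hd (Ap_js hd n s M) (2 * M + n) 0 (tc n s M)
    unfold js
    have e : Helper31.Bes.S n (M + 1) (2 * (s : ℝ) * x) =
        ((tc n s M : ℚ) : ℝ) * mv x y (2 * M + n, 0) + Helper31.Bes.S n M (2 * (s : ℝ) * x) := by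
      unfold Helper31.Bes.S
      rw [Finset.sum_range_succ, add_comm]
      congr 1
      unfold tc mv
      push_cast
      rw [show 2 * (s : ℝ) * x / 2 = s * x by ring, mul_pow, pow_zero, mul_one]
      ring
    rw [e]
    exact h

/-- model of `J_n (2 s x)`, `n ≥ 0` -/
def jn (n : ℕ) (s : ℚ) : TM :=
  let M := (9 - n) / 2 + 1
  let T := js n s M
  ⟨T.p, er (2 * M + n) 0 (s ^ (2 * M + n) / ((M.factorial : ℚ) * ((M + n).factorial : ℚ))) T.e⟩

theorem Ap_er {x y f g : ℝ} (hd : Dm x y) {T : TM} (hT : Ap x y f T) (i k : ℕ) (c : ℚ)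
    (hg : |g| ≤ |(c : ℝ)| * mv x y (i, k)) : Ap x y (g + f) ⟨T.p, er i k c T.e⟩ := by
  unfold Ap at hT ⊢
  simp only
  refine le_trans ?_ (er_le hd i k c T.e)
  have e : g + f - ev x y T.p = g + (f - ev x y T.p) := by ring
  rw [e]
  exact (abs_add_le _ _).trans (add_le_add hg hT)

theorem Ap_jn {x y : ℝ} (hd : Dm x y) (n : ℕ) (s : ℚ) : Ap x y (J (n : ℤ) (2 * (s : ℝ) * x)) (jn n s) := by
  unfold jn
  simp only
  set M := (9 - n) / 2 + 1 with hM
  have h1 := Ap_js hd n s M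
  have h2 := J_tay n M (2 * (s : ℝ) * x)
  have e : J (n : ℤ) (2 * (s : ℝ) * x) = (J (n : ℤ) (2 * (s : ℝ) * x) - Helper31.Bes.S n M (2 * (s : ℝ) * x))
      + Helper31.Bes.S n M (2 * (s : ℝ) * x) := by ring
  rw [e]
  refine Ap_er hd h1 _ _ _ (h2.trans (le_of_eq ?_))
  unfold mv
  push_cast
  have hx := hd.x0
  rw [show 2 * (s : ℝ) * x / 2 = s * x by ring, abs_mul, abs_of_nonneg hx, mul_pow, abs_div, abs_pow, pow_zero,
    mul_one]
  have h3 : (0 : ℝ) < (M.factorial : ℝ) * ((M + n).factorial : ℝ) := by positivity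
  rw [abs_of_pos h3]
  ring

/-- model of `J_j (2 s x)`, `j` an integer -/
def jz (j : ℤ) (s : ℚ) : TM := if 0 ≤ j then jn j.toNat s else jn (-j).toNat (-s)

theorem Ap_jz {x y : ℝ} (hd : Dm x y) (j : ℤ) (s : ℚ) : Ap x y (J j (2 * (s : ℝ) * x)) (jz j s) := by
  unfold jz
  split_ifs with h
  · have h1 := Ap_jn hd j.toNat s
    rw [Int.toNat_of_nonneg h] at h1
    exact h1
  · have h1 := Ap_jn hd (-j).toNat (-s)
    rw [Int.toNat_of_nonneg (by omega)] at h1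
    have h2 := Helper31.Bes.J_neg_arg (-j) (2 * (s : ℝ) * x)
    rw [neg_neg] at h2
    rw [← h2]
    push_cast at h1
    rw [show 2 * -(s : ℝ) * x = -(2 * (s : ℝ) * x) by ring] at h1
    exact h1

/-! ### cosine and sine -/

theorem trig5 (w : ℝ) (hw : |w| ≤ 1) :
    |Real.cos w - (1 - w ^ 2 / 2 + w ^ 4 / 24)| ≤ |w| ^ 5 / 100 ∧
      |Real.sin w - (w - w ^ 3 / 6)| ≤ |w| ^ 5 / 100 := by
  have h1 : ‖((w : ℂ) * Complex.I)‖ ≤ 1 := by
    rw [norm_mul, Complex.norm_I, mul_one, Complex.norm_real]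
    exact hw
  have h2 := Complex.exp_bound h1 (n := 5) (by norm_num)
  have h3 : ‖((w : ℂ) * Complex.I)‖ = |w| := by
    rw [norm_mul, Complex.norm_I, mul_one, Complex.norm_real, Real.norm_eq_abs]
  rw [h3] at h2
  have h4 : ∑ m ∈ Finset.range 5, ((w : ℂ) * Complex.I) ^ m / (m.factorial : ℂ) =
      ((1 - w ^ 2 / 2 + w ^ 4 / 24 : ℝ) : ℂ) + ((w - w ^ 3 / 6 : ℝ) : ℂ) * Complex.I := by
    have i2 := Complex.I_sq
    simp only [Finset.sum_range_succ, Finset.sum_range_zero, Nat.factorial]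
    push_cast
    have i3 : Complex.I ^ 3 = -Complex.I := by rw [pow_succ, i2]; ring
    have i4 : Complex.I ^ 4 = 1 := by
      rw [show (4 : ℕ) = 2 + 2 from rfl, pow_add, i2]; ring
    simp only [mul_pow, i2, i3, i4]
    ring
  rw [h4, Complex.exp_mul_I] at h2
  have h5 : Complex.cos (w : ℂ) + Complex.sin (w : ℂ) * Complex.I -
      (((1 - w ^ 2 / 2 + w ^ 4 / 24 : ℝ) : ℂ) + ((w - w ^ 3 / 6 : ℝ) : ℂ) * Complex.I) =
      ((Real.cos w - (1 - w ^ 2 / 2 + w ^ 4 / 24) : ℝ) : ℂ) +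
        ((Real.sin w - (w - w ^ 3 / 6) : ℝ) : ℂ) * Complex.I := by
    push_cast
    ring
  rw [h5] at h2
  have h6 : |w| ^ 5 * ((Nat.succ 5 : ℝ) * ((Nat.factorial 5 : ℝ) * 5)⁻¹) = |w| ^ 5 / 100 := by
    simp only [Nat.factorial]
    push_cast
    ring
  have h7 : ‖((Real.cos w - (1 - w ^ 2 / 2 + w ^ 4 / 24) : ℝ) : ℂ) +
        ((Real.sin w - (w - w ^ 3 / 6) : ℝ) : ℂ) * Complex.I‖ ≤ |w| ^ 5 / 100 := by
    refine h2.trans (le_of_eq ?_)
    rw [← h6]
    push_cast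
    ring
  have r1 : ∀ a b : ℝ, ((a : ℂ) + (b : ℂ) * Complex.I).re = a := by
    intro a b
    simp
  have r2 : ∀ a b : ℝ, ((a : ℂ) + (b : ℂ) * Complex.I).im = b := by
    intro a b
    simp
  constructor
  · have h8 := (Complex.abs_re_le_norm _).trans h7
    rw [r1] at h8
    exact h8
  · have h8 := (Complex.abs_im_le_norm _).trans h7
    rw [r2] at h8
    exact h8

/-- constant -/
def ct (c : ℚ) : TM := ⟨[((0, 0), c)], []⟩

theorem Ap_ct (x y : ℝ) (c : ℚ) : Ap x y (c : ℝ) (ct c) := by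
  unfold Ap ct
  simp [mv]

theorem Ap_pol (x y : ℝ) (p : P2) : Ap x y (ev x y p) ⟨p, []⟩ := by
  unfold Ap
  simp

/-- adds the error `|c| * av q` -/
theorem Ap_me1 {x y f g : ℝ} (hd : Dm x y) {T : TM} (hT : Ap x y f T) (c : ℚ) (q : P2)
    (hg : |g| ≤ |(c : ℝ)| * av x y q) : Ap x y (g + f) ⟨T.p, me1 0 0 c q T.e⟩ := by
  unfold Ap at hT ⊢
  simp only
  have h := me1_le hd 0 0 c q T.e
  unfold mv at h
  simp only [pow_zero, mul_one] at h
  refine le_trans ?_ h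
  have e : g + f - ev x y T.p = g + (f - ev x y T.p) := by ring
  rw [e]
  exact (abs_add_le _ _).trans (add_le_add hg hT)

/-- the powers of `d` -/
structure DP where
  d1 : P2
  d2 : TM
  d3 : TM
  d4 : TM
  d5 : P2

/-- the powers of `ev d` -/
def dps (d : P2) : DP :=
  let d2 := mul ⟨d, []⟩ ⟨d, []⟩ ⟨[], []⟩
  let q2 := mep d d []
  ⟨d, d2, mul ⟨d, []⟩ d2 ⟨[], []⟩, mul d2 d2 ⟨[], []⟩, mep (mep q2 q2 []) d []⟩

/-- model of `cos (s d)` -/
def cs (D : DP) (s : ℚ) : TM :=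
  let T := mul (ct (s ^ 4 / 24)) D.d4 (mul (ct (-(s ^ 2) / 2)) D.d2 (ct 1))
  ⟨T.p, me1 0 0 (s ^ 5 / 100) D.d5 T.e⟩

/-- model of `sin (s d)` -/
def sn (D : DP) (s : ℚ) : TM :=
  let T := mul (ct (-(s ^ 3) / 6)) D.d3 (mul (ct s) ⟨D.d1, []⟩ ⟨[], []⟩)
  ⟨T.p, me1 0 0 (s ^ 5 / 100) D.d5 T.e⟩

theorem d5_le {x y : ℝ} (hd : Dm x y) (d : P2) : |ev x y d| ^ 5 ≤ av x y (dps d).d5 := by
  have h1 := abs_ev_le hd.x0 hd.y0 d
  have n1 := av_nonneg hd.x0 hd.y0 d
  have h2 := mep_le hd d d []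
  rw [ev_nil, add_zero] at h2
  have h3 := ev_le_av hd (mep d d [])
  have h4 := mep_le hd (mep d d []) (mep d d []) []
  rw [ev_nil, add_zero] at h4
  have h5 := ev_le_av hd (mep (mep d d []) (mep d d []) [])
  have h6 := mep_le hd (mep (mep d d []) (mep d d []) []) d []
  rw [ev_nil, add_zero] at h6
  have h7 := ev_le_av hd (mep (mep (mep d d []) (mep d d []) []) d [])
  have e : (dps d).d5 = mep (mep (mep d d []) (mep d d []) []) d [] := rfl
  rw [e]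
  set a := av x y d
  have a2 : a * a ≤ av x y (mep d d []) := h2.trans h3
  have a4 : (a * a) * (a * a) ≤ av x y (mep (mep d d []) (mep d d []) []) := by
    refine le_trans ?_ (h4.trans h5)
    exact mul_le_mul a2 a2 (by positivity) ((by positivity : (0 : ℝ) ≤ a * a).trans a2)
  have a5 : ((a * a) * (a * a)) * a ≤ av x y (mep (mep (mep d d []) (mep d d []) []) d []) := by
    refine le_trans ?_ (h6.trans h7)
    exact mul_le_mul_of_nonneg_right a4 n1
  calc |ev x y d| ^ 5 ≤ a ^ 5 := pow_le_pow_left₀ (abs_nonneg _) h1 5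
    _ = ((a * a) * (a * a)) * a := by ring
    _ ≤ _ := a5

theorem Ap_cs {x y : ℝ} (hd : Dm x y) (d : P2) (s : ℚ) (h : |(s : ℝ) * ev x y d| ≤ 1) :
    Ap x y (Real.cos ((s : ℝ) * ev x y d)) (cs (dps d) s) := by
  have h1 := (trig5 _ h).1
  have t1 := Ap_pol x y d
  have t0 := Ap_zero x y
  have t2 := Ap_mul hd t1 t1 t0
  have t4 := Ap_mul hd t2 t2 t0
  have t5 := Ap_mul hd (Ap_ct x y (s ^ 4 / 24)) t4 (Ap_mul hd (Ap_ct x y (-(s ^ 2) / 2)) t2 (Ap_ct x y 1))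
  set w := ev x y d with hw
  have e : Real.cos ((s : ℝ) * w) = (Real.cos ((s : ℝ) * w) -
      (1 - ((s : ℝ) * w) ^ 2 / 2 + ((s : ℝ) * w) ^ 4 / 24)) +
      (((s ^ 4 / 24 : ℚ) : ℝ) * ((w * w + 0) * (w * w + 0) + 0) +
        (((-(s ^ 2) / 2 : ℚ) : ℝ) * (w * w + 0) + ((1 : ℚ) : ℝ))) := by
    push_cast
    ring
  rw [e]
  refine Ap_me1 hd t5 _ _ (h1.trans ?_)
  have h5 := d5_le hd d
  rw [← hw] at h5
  push_cast
  rw [abs_mul, mul_pow, abs_div, abs_pow]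
  have : |(100 : ℝ)| = 100 := abs_of_pos (by norm_num)
  rw [this]
  have h6 : (0 : ℝ) ≤ |(s : ℝ)| ^ 5 := by positivity
  calc |(s : ℝ)| ^ 5 * |w| ^ 5 / 100 = |(s : ℝ)| ^ 5 / 100 * |w| ^ 5 := by ring
    _ ≤ |(s : ℝ)| ^ 5 / 100 * av x y (dps d).d5 := mul_le_mul_of_nonneg_left h5 (by positivity)

theorem Ap_sn {x y : ℝ} (hd : Dm x y) (d : P2) (s : ℚ) (h : |(s : ℝ) * ev x y d| ≤ 1) :
    Ap x y (Real.sin ((s : ℝ) * ev x y d)) (sn (dps d) s) := by
  have h1 := (trig5 _ h).2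
  have t1 := Ap_pol x y d
  have t0 := Ap_zero x y
  have t2 := Ap_mul hd t1 t1 t0
  have t3 := Ap_mul hd t1 t2 t0
  have t5 := Ap_mul hd (Ap_ct x y (-(s ^ 3) / 6)) t3 (Ap_mul hd (Ap_ct x y s) t1 t0)
  set w := ev x y d with hw
  have e : Real.sin ((s : ℝ) * w) = (Real.sin ((s : ℝ) * w) - ((s : ℝ) * w - ((s : ℝ) * w) ^ 3 / 6)) +
      (((-(s ^ 3) / 6 : ℚ) : ℝ) * (w * (w * w + 0) + 0) + ((s : ℝ) * w + 0)) := by
    push_cast
    ring
  rw [e]
  refine Ap_me1 hd t5 _ _ (h1.trans ?_)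
  have h5 := d5_le hd d
  rw [← hw] at h5
  push_cast
  rw [abs_mul, mul_pow, abs_div, abs_pow]
  have : |(100 : ℝ)| = 100 := abs_of_pos (by norm_num)
  rw [this]
  have h6 : (0 : ℝ) ≤ |(s : ℝ)| ^ 5 := by positivity
  calc |(s : ℝ)| ^ 5 * |w| ^ 5 / 100 = |(s : ℝ)| ^ 5 / 100 * |w| ^ 5 := by ring
    _ ≤ |(s : ℝ)| ^ 5 / 100 * av x y (dps d).d5 := mul_le_mul_of_nonneg_left h5 (by positivity)

end Pool.Agent.Helper99.SH
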