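import Pool.Agent.Helper99.SH.TMT
import Pool.Agent.Helper95.RC.Coef

/-!
# The lists of Fourier coefficients of the edge families of trigonometric polynomials in `u, v`
-/

set_option autoImplicit false

namespace Pool.Agent.Helper99.SH

open Helper49.LT hiding sg
open Helper56.RC (fc)
open Helper95.RC (wc pc rc sc kq)

/-- a term `c u^a conj(u)^a' v^b conj(v)^b'` -/
structure RT where
  a : ℕ
  a' : ℕ
  b : ℕ
  b' : ℕ
  c : ℚ
deriving DecidableEq

/-- value of a term -/
noncomputable def rt (u v : ℂ) (t : RT) : ℂ :=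
  (t.c : ℂ) * (u ^ t.a * (starRingEnd ℂ) u ^ t.a' * (v ^ t.b * (starRingEnd ℂ) v ^ t.b'))

/-- value of a list -/
noncomputable def rv (u v : ℂ) : List RT → ℂ
  | [] => 0
  | t :: l => rt u v t + rv u v l

@[simp] theorem rv_nil (u v : ℂ) : rv u v [] = 0 := rfl
@[simp] theorem rv_cons (u v : ℂ) (t : RT) (l : List RT) : rv u v (t :: l) = rt u v t + rv u v l := rfl

/-- insertion -/
def rin (t : RT) : List RT → List RT
  | [] => [t]
  | s :: l => if s.a = t.a ∧ s.a' = t.a' ∧ s.b = t.b ∧ s.b' = t.b' then ⟨s.a, s.a', s.b, s.b', t.c + s.c⟩ :: l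
    else s :: rin t l

theorem rv_rin (u v : ℂ) (t : RT) : ∀ l : List RT, rv u v (rin t l) = rt u v t + rv u v l
  | [] => rfl
  | s :: l => by
    unfold rin
    split_ifs with h
    · rw [rv_cons, rv_cons]
      unfold rt
      simp only
      rw [h.1, h.2.1, h.2.2.1, h.2.2.2]
      push_cast
      ring
    · rw [rv_cons, rv_cons, rv_rin u v t l]
      ring

/-- product with a term -/
def rm1 (s : RT) : List RT → List RT → List RT
  | [], M => M
  | t :: l, M => rm1 s l (rin ⟨s.a + t.a, s.a' + t.a', s.b + t.b, s.b' + t.b', s.c * t.c⟩ M)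

theorem rv_rm1 (u v : ℂ) (s : RT) : ∀ l M : List RT, rv u v (rm1 s l M) = rt u v s * rv u v l + rv u v M
  | [], M => by simp [rm1]
  | t :: l, M => by
    unfold rm1
    rw [rv_rm1 u v s l, rv_rin, rv_cons]
    have : rt u v ⟨s.a + t.a, s.a' + t.a', s.b + t.b, s.b' + t.b', s.c * t.c⟩ = rt u v s * rt u v t := by
      unfold rt
      simp only [pow_add]
      push_cast
      ring
    rw [this]
    ring

/-- product -/
def rmu : List RT → List RT → List RT
  | [], _ => []
  | s :: l, M => rm1 s M (rmu l M)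

theorem rv_rmu (u v : ℂ) : ∀ l M : List RT, rv u v (rmu l M) = rv u v l * rv u v M
  | [], M => by simp [rmu]
  | s :: l, M => by
    unfold rmu
    rw [rv_rm1, rv_rmu u v l M, rv_cons]
    ring

/-- the harmonic of a term -/
def hr (t : RT) : ℤ := 3 * (t.a' : ℤ) + 5 * (t.b' : ℤ) - 3 * (t.a : ℤ) - 5 * (t.b : ℤ)

/-- insertion -/
def kin (t : KT) : List KT → List KT
  | [] => [t]
  | s :: l => if s.a = t.a ∧ s.b = t.b ∧ s.c = t.c then ⟨s.a, s.b, s.c, t.p + s.p, t.q + s.q⟩ :: l
    else s :: kin t l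

theorem kv_kin (x : ℝ) (B : ℂ) (t : KT) : ∀ l : List KT, kv x B (kin t l) = kt x B t + kv x B l
  | [] => rfl
  | s :: l => by
    unfold kin
    split_ifs with h
    · rw [kv_cons, kv_cons]
      unfold kt
      simp only
      rw [h.1, h.2.1, h.2.2]
      push_cast
      ring
    · rw [kv_cons, kv_cons, kv_kin x B t l]
      ring

/-- the terms of harmonic `n`, multiplied by `p + q √-3`, added to a list -/
def pk (n : ℤ) (p q : ℚ) : List RT → List KT → List KT
  | [], M => M
  | t :: l, M => if hr t = n then kin ⟨t.a + t.a', t.b, t.b', t.c * p, t.c * q⟩ (pk n p q l M) else pk n p q l M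

/-- the list of the harmonic `n` of a function -/
noncomputable def hv (x : ℝ) (B : ℂ) (n : ℤ) : List RT → ℂ
  | [] => 0
  | t :: l => (if hr t = n then rt (x : ℂ) B t else 0) + hv x B n l

theorem kv_pk (x : ℝ) (B : ℂ) (n : ℤ) (p q : ℚ) : ∀ (l : List RT) (M : List KT),
    kv x B (pk n p q l M) = ((p : ℂ) + (q : ℂ) * s3) * hv x B n l + kv x B M
  | [], M => by simp [pk, hv]
  | t :: l, M => by
    unfold pk hv
    split_ifs with h
    · rw [kv_kin, kv_pk x B n p q l M]
      unfold kt rt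
      simp only [Complex.conj_ofReal, pow_add]
      push_cast
      ring
    · rw [kv_pk x B n p q l M]
      ring

/-- rotation by `p + q √-3` -/
def ro (p q : ℚ) : List KT → List KT
  | [] => []
  | t :: l => ⟨t.a, t.b, t.c, t.p * p - 3 * (t.q * q), t.p * q + t.q * p⟩ :: ro p q l

theorem kv_ro (x : ℝ) (B : ℂ) (p q : ℚ) : ∀ l : List KT,
    kv x B (ro p q l) = ((p : ℂ) + (q : ℂ) * s3) * kv x B l
  | [] => by simp [ro]
  | t :: l => by
    unfold ro
    rw [kv_cons, kv_cons, kv_ro x B p q l]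
    unfold kt
    simp only
    push_cast
    linear_combination (-(t.q : ℂ) * (q : ℂ)) * ((x : ℂ) ^ t.a * (B ^ t.b * (starRingEnd ℂ) B ^ t.c)) * s3_sq

/-- the coordinates of `ee (-m π/3)` -/
def r1 (m : ℤ) : ℚ × ℚ :=
  if m % 6 = 0 then (1, 0) else if m % 6 = 1 then (1/2, -1/2) else if m % 6 = 2 then (-1/2, -1/2)
  else if m % 6 = 3 then (-1, 0) else if m % 6 = 4 then (-1/2, 1/2) else (1/2, 1/2)

/-- the data: `w`, `w b₂`, `w b₃ / i`, `w z` -/
structure Dt where
  w : List RT
  p : List RT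
  r : List RT
  s : List RT

/-- the coefficient `m` of the family 1 -/
def la (D : Dt) (m : ℤ) : List KT :=
  ro (r1 m).1 (r1 m).2 (pk (m - 1) (1/2) (1/2) D.w (pk (m - 1) (1/2) (-1/2) D.p
    (pk (m - 1) (-1/4) 1 D.r (pk (m - 1) 1 0 D.s []))))

/-- the coefficient `m` of the family 2 -/
def lb (D : Dt) (m : ℤ) : List KT :=
  ro (r1 (2 * m)).1 (r1 (2 * m)).2 (pk (m - 1) (-1/2) (1/2) D.w (pk (m - 1) (-1/2) (-1/2) D.p
    (pk (m - 1) (1/4) 1 D.r (pk (m - 1) (-1) 0 D.s []))))

/-- the list -/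
def bd (D : Dt) (l : List ℤ) : List Hm := l.map fun m => ⟨m, la D m, lb D m⟩

/-- all harmonics are in the list -/
def chk (D : Dt) (l : List ℤ) : Bool :=
  (D.w.all fun t => decide (hr t + 1 ∈ l)) && (D.p.all fun t => decide (hr t + 1 ∈ l)) &&
    (D.r.all fun t => decide (hr t + 1 ∈ l)) && (D.s.all fun t => decide (hr t + 1 ∈ l))

end Pool.Agent.Helper99.SH
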