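import Pool.Agent.Helper99.SH.TMB
import Pool.Agent.Helper99.RC.KcSin

/-!
# The shift form of trigonometric polynomials: models of the entries

`KP`: polynomials in `A` (real), `B`, `conj B` with coefficients `p + q √-3`.
-/

set_option autoImplicit false

namespace Pool.Agent.Helper99.SH

open Helper49.LT hiding sg
open Helper31.Bes (J)
open Pool.Agent.Helper99.RC

/-- `√-3` -/
noncomputable def s3 : ℂ := Complex.I * ((Real.sqrt 3 : ℝ) : ℂ)

theorem s3_sq : s3 * s3 = -3 := by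
  unfold s3
  have h : ((Real.sqrt 3 : ℝ) : ℂ) * ((Real.sqrt 3 : ℝ) : ℂ) = 3 := by
    rw [← Complex.ofReal_mul, Real.mul_self_sqrt (by norm_num)]; norm_num
  linear_combination (Complex.I * Complex.I) * h + 3 * Complex.I_mul_I

theorem s3_conj : (starRingEnd ℂ) s3 = -s3 := by
  unfold s3
  rw [map_mul, Complex.conj_I, Complex.conj_ofReal]
  ring

theorem s3_norm : ‖s3‖ ≤ 2 := by
  unfold s3
  rw [norm_mul, Complex.norm_I, one_mul, Complex.norm_real, Real.norm_of_nonneg (Real.sqrt_nonneg 3)]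
  rw [show (2 : ℝ) = Real.sqrt 4 by rw [show (4 : ℝ) = 2 ^ 2 by norm_num, Real.sqrt_sq (by norm_num)]]
  exact Real.sqrt_le_sqrt (by norm_num)

/-- a term p + q √-3 times A^a B^b conj(B)^c -/
structure KT where
  a : ℕ
  b : ℕ
  c : ℕ
  p : ℚ
  q : ℚ
deriving DecidableEq

/-- value of a term -/
noncomputable def kt (x : ℝ) (B : ℂ) (t : KT) : ℂ :=
  ((t.p : ℂ) + (t.q : ℂ) * s3) * ((x : ℂ) ^ t.a * (B ^ t.b * (starRingEnd ℂ) B ^ t.c))

/-- value of a polynomial -/
noncomputable def kv (x : ℝ) (B : ℂ) : List KT → ℂ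
  | [] => 0
  | t :: l => kt x B t + kv x B l

@[simp] theorem kv_nil (x : ℝ) (B : ℂ) : kv x B [] = 0 := rfl
@[simp] theorem kv_cons (x : ℝ) (B : ℂ) (t : KT) (l : List KT) : kv x B (t :: l) = kt x B t + kv x B l := rfl

/-- accumulators of a product: real part, part of `√-3`, bound of the nonresonant part -/
structure PR where
  X : P2
  Y : P2
  N : P2

/-- the value `v` is described by `R` -/
def Pr (x : ℝ) (B : ℂ) (v : ℂ) (R : PR) : Prop :=
  ∃ ν : ℂ, v = (ev x ‖B‖ R.X : ℂ) + (ev x ‖B‖ R.Y : ℂ) * s3 + ν ∧ ‖ν‖ ≤ av x ‖B‖ R.N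

/-- adds `s * conj t` -/
def pr1 (s t : KT) (R : PR) : PR :=
  let P := s.p * t.p + 3 * (s.q * t.q)
  let Q := s.q * t.p - s.p * t.q
  if s.b + t.c = s.c + t.b then
    ⟨if P = 0 then R.X else ins (s.a + t.a, (s.b + t.c) + (s.c + t.b)) P R.X,
      if Q = 0 then R.Y else ins (s.a + t.a, (s.b + t.c) + (s.c + t.b)) Q R.Y, R.N⟩
  else ⟨R.X, R.Y, ins (s.a + t.a, (s.b + t.c) + (s.c + t.b)) (|P| + 2 * |Q|) R.N⟩

theorem av_ins {x y : ℝ} (hx : 0 ≤ x) (hy : 0 ≤ y) (k : Ix) (c : ℚ) (hc : 0 ≤ c) : ∀ p : P2,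
    (∀ t ∈ p, 0 ≤ t.2) → av x y (ins k c p) = (c : ℝ) * mv x y k + av x y p ∧ ∀ t ∈ ins k c p, 0 ≤ t.2
  | [], _ => by
    have : (0 : ℝ) ≤ (c : ℝ) := by exact_mod_cast hc
    constructor
    · simp [ins, abs_of_nonneg this]
    · intro t ht
      simp only [ins, List.mem_singleton] at ht
      rw [ht]
      exact hc
  | t :: p, hp => by
    have h0 : (0 : ℝ) ≤ (c : ℝ) := by exact_mod_cast hc
    have h1 : (0 : ℚ) ≤ t.2 := hp t (by simp)
    have h1' : (0 : ℝ) ≤ (t.2 : ℝ) := by exact_mod_cast h1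
    have ih := av_ins hx hy k c hc p (fun s hs => hp s (by simp [hs]))
    unfold ins
    split_ifs with h
    · have h' : t.1 = k := Prod.ext h.1 h.2
      constructor
      · rw [av_cons, av_cons, h', abs_of_nonneg h1']
        push_cast
        rw [abs_of_nonneg (add_nonneg h0 h1')]
        ring
      · intro s hs
        rcases List.mem_cons.1 hs with rfl | hs
        · exact add_nonneg hc h1
        · exact hp s (by simp [hs])
    · constructor
      · rw [av_cons, av_cons, ih.1]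
        ring
      · intro s hs
        rcases List.mem_cons.1 hs with rfl | hs
        · exact h1
        · exact ih.2 s hs

/-- the product of two terms -/
theorem kt_mul (x : ℝ) (B : ℂ) (s t : KT) : kt x B s * (starRingEnd ℂ) (kt x B t) =
    (((s.p * t.p + 3 * (s.q * t.q) : ℚ) : ℂ) + ((s.q * t.p - s.p * t.q : ℚ) : ℂ) * s3) *
      ((x : ℂ) ^ (s.a + t.a) * (B ^ (s.b + t.c) * (starRingEnd ℂ) B ^ (s.c + t.b))) := by
  unfold kt
  simp only [map_mul, map_add, map_pow, Complex.conj_ofReal, s3_conj, Complex.conj_conj, map_ratCast, pow_add]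
  push_cast
  linear_combination (-(s.q : ℂ) * (t.q : ℂ)) * ((x : ℂ) ^ s.a * (x : ℂ) ^ t.a *
    (B ^ s.b * B ^ t.c * ((starRingEnd ℂ) B ^ s.c * (starRingEnd ℂ) B ^ t.b))) * s3_sq

theorem B_pow (B : ℂ) (n : ℕ) : B ^ n * (starRingEnd ℂ) B ^ n = ((‖B‖ ^ (n + n) : ℝ) : ℂ) := by
  rw [← mul_pow, Complex.mul_conj, Complex.normSq_eq_norm_sq, ← Complex.ofReal_pow, ← pow_mul]
  congr 2
  ring

/-- nonnegative nonresonant coefficients are kept -/
def PR.ok (R : PR) : Prop := ∀ t ∈ R.N, 0 ≤ t.2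

theorem pr1_ok (s t : KT) (R : PR) (h : R.ok) : (pr1 s t R).ok := by
  unfold pr1
  simp only
  split_ifs
  · exact h
  · exact h
  · exact h
  · exact h
  · exact (av_ins (x := 0) (y := 0) le_rfl le_rfl _ _ (by positivity) R.N h).2

theorem Pr_pr1 {x : ℝ} (hx : 0 ≤ x) (B : ℂ) (s t : KT) (R : PR) (hok : R.ok) (v : ℂ) (h : Pr x B v R) :
    Pr x B (kt x B s * (starRingEnd ℂ) (kt x B t) + v) (pr1 s t R) := by
  obtain ⟨ν, hv, hν⟩ := h
  rw [kt_mul]
  unfold pr1
  simp only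
  set P := s.p * t.p + 3 * (s.q * t.q) with hP
  set Q := s.q * t.p - s.p * t.q with hQ
  by_cases hr : s.b + t.c = s.c + t.b
  · rw [if_pos hr]
    refine ⟨ν, ?_, hν⟩
    simp only
    have e1 : (ev x ‖B‖ (if P = 0 then R.X else ins (s.a + t.a, (s.b + t.c) + (s.c + t.b)) P R.X) : ℂ) =
        (P : ℂ) * (mv x ‖B‖ (s.a + t.a, (s.b + t.c) + (s.c + t.b)) : ℂ) + (ev x ‖B‖ R.X : ℂ) := by
      split_ifs with h0
      · rw [h0]
        simp
      · rw [ev_ins]
        push_cast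
        rfl
    have e2 : (ev x ‖B‖ (if Q = 0 then R.Y else ins (s.a + t.a, (s.b + t.c) + (s.c + t.b)) Q R.Y) : ℂ) =
        (Q : ℂ) * (mv x ‖B‖ (s.a + t.a, (s.b + t.c) + (s.c + t.b)) : ℂ) + (ev x ‖B‖ R.Y : ℂ) := by
      split_ifs with h0
      · rw [h0]
        simp
      · rw [ev_ins]
        push_cast
        rfl
    rw [e1, e2, hv]
    have e3 : (x : ℂ) ^ (s.a + t.a) * (B ^ (s.b + t.c) * (starRingEnd ℂ) B ^ (s.c + t.b)) =
        (mv x ‖B‖ (s.a + t.a, (s.b + t.c) + (s.c + t.b)) : ℂ) := by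
      unfold mv
      simp only
      rw [← hr, B_pow]
      push_cast
      ring
    rw [e3]
    ring
  · rw [if_neg hr]
    have hN := av_ins hx (norm_nonneg B) (s.a + t.a, (s.b + t.c) + (s.c + t.b)) (|P| + 2 * |Q|)
      (by positivity) R.N hok
    refine ⟨((P : ℂ) + (Q : ℂ) * s3) * ((x : ℂ) ^ (s.a + t.a) *
      (B ^ (s.b + t.c) * (starRingEnd ℂ) B ^ (s.c + t.b))) + ν, ?_, ?_⟩
    · simp only
      rw [hv]
      ring
    · simp only
      rw [hN.1]
      refine (norm_add_le _ _).trans (add_le_add ?_ hν)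
      rw [norm_mul, norm_mul, norm_mul, norm_pow, norm_pow, norm_pow, Complex.norm_conj, Complex.norm_real,
        Real.norm_of_nonneg hx]
      unfold mv
      simp only
      have h1 : ‖((P : ℂ) + (Q : ℂ) * s3)‖ ≤ ((|P| + 2 * |Q| : ℚ) : ℝ) := by
        refine (norm_add_le _ _).trans ?_
        rw [norm_mul]
        have e1 : ‖(P : ℂ)‖ = |(P : ℝ)| := by
          rw [← Complex.ofReal_ratCast, Complex.norm_real, Real.norm_eq_abs]
        have e2 : ‖(Q : ℂ)‖ = |(Q : ℝ)| := by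
          rw [← Complex.ofReal_ratCast, Complex.norm_real, Real.norm_eq_abs]
        rw [e1, e2]
        push_cast
        nlinarith [s3_norm, abs_nonneg (Q : ℝ), norm_nonneg s3]
      have h2 : ‖B‖ ^ (s.b + t.c) * ‖B‖ ^ (s.c + t.b) = ‖B‖ ^ ((s.b + t.c) + (s.c + t.b)) := by
        rw [← pow_add]
      rw [h2]
      exact mul_le_mul_of_nonneg_right h1 (by positivity)

/-- adds `s * conj (t₁ + t₂ + ..)` -/
def pr2 (s : KT) : List KT → PR → PR
  | [], R => R
  | t :: l, R => pr2 s l (pr1 s t R)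

/-- adds the product `x * conj y` -/
def pr3 : List KT → List KT → PR → PR
  | [], _, R => R
  | s :: l, y, R => pr3 l y (pr2 s y R)

theorem Pr_pr2 {x : ℝ} (hx : 0 ≤ x) (B : ℂ) (s : KT) : ∀ (l : List KT) (R : PR) (v : ℂ), R.ok → Pr x B v R →
    (pr2 s l R).ok ∧ Pr x B (kt x B s * (starRingEnd ℂ) (kv x B l) + v) (pr2 s l R)
  | [], R, v, hok, h => by
    unfold pr2
    rw [kv_nil, map_zero, mul_zero, zero_add]
    exact ⟨hok, h⟩
  | t :: l, R, v, hok, h => by
    have h1 := Pr_pr2 hx B s l _ _ (pr1_ok s t R hok) (Pr_pr1 hx B s t R hok v h)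
    unfold pr2
    refine ⟨h1.1, ?_⟩
    have e : kt x B s * (starRingEnd ℂ) (kv x B (t :: l)) + v =
        kt x B s * (starRingEnd ℂ) (kv x B l) + (kt x B s * (starRingEnd ℂ) (kt x B t) + v) := by
      rw [kv_cons, map_add]
      ring
    rw [e]
    exact h1.2

theorem Pr_pr3 {x : ℝ} (hx : 0 ≤ x) (B : ℂ) : ∀ (l y : List KT) (R : PR) (v : ℂ), R.ok → Pr x B v R →
    (pr3 l y R).ok ∧ Pr x B (kv x B l * (starRingEnd ℂ) (kv x B y) + v) (pr3 l y R)
  | [], y, R, v, hok, h => by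
    unfold pr3
    rw [kv_nil, zero_mul, zero_add]
    exact ⟨hok, h⟩
  | s :: l, y, R, v, hok, h => by
    have h2 := Pr_pr2 hx B s y R v hok h
    have h1 := Pr_pr3 hx B l y _ _ h2.1 h2.2
    unfold pr3
    refine ⟨h1.1, ?_⟩
    have e : kv x B (s :: l) * (starRingEnd ℂ) (kv x B y) + v =
        kv x B l * (starRingEnd ℂ) (kv x B y) + (kt x B s * (starRingEnd ℂ) (kv x B y) + v) := by
      rw [kv_cons]
      ring
    rw [e]
    exact h1.2

/-- the product `x * conj y` -/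
theorem Pr_prod {x : ℝ} (hx : 0 ≤ x) (B : ℂ) (l y : List KT) :
    Pr x B (kv x B l * (starRingEnd ℂ) (kv x B y)) (pr3 l y ⟨[], [], []⟩) := by
  have h := (Pr_pr3 hx B l y ⟨[], [], []⟩ 0 (fun t ht => by simp at ht) ⟨0, by simp, by simp⟩).2
  rwa [add_zero] at h

end Pool.Agent.Helper99.SH
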