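import Pool.Agent.Helper99.SH.TMN

/-!
# The shift form of trigonometric polynomials: model of the whole form

`x = A ≥ 0`, `y = |B|`, shift `ψ φ = -d + A sin (3 φ + π)`, `d = ev x y d`.
-/

set_option autoImplicit false

namespace Pool.Agent.Helper99.SH

open Helper49.LT hiding sg
open Helper31.Bes (J)
open Pool.Agent.Helper99.RC

/-- multiple of a polynomial -/
def scP (c : ℚ) : P2 → P2
  | [] => []
  | t :: p => (t.1, c * t.2) :: scP c p

theorem ev_scP (x y : ℝ) (c : ℚ) : ∀ p : P2, ev x y (scP c p) = (c : ℝ) * ev x y p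
  | [] => by simp [scP]
  | t :: p => by
    unfold scP
    rw [ev_cons, ev_cons, ev_scP x y c p]
    push_cast
    ring

/-- a pair of models: `f + √3 g` -/
structure T2 where
  F : TM
  G : TM
deriving DecidableEq

/-- `v = f + √3 g` -/
def Ap2 (x y v : ℝ) (T : T2) : Prop :=
  ∃ f g : ℝ, v = f + Real.sqrt 3 * g ∧ Ap x y f T.F ∧ Ap x y g T.G

/-- adds `c * p * T` -/
def mp (c : ℚ) (p : P2) (T U : TM) : TM :=
  match p with
  | [] => U
  | t :: q => mul ⟨scP c (t :: q), []⟩ T U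

theorem Ap_mp {x y f h : ℝ} (hd : Dm x y) (c : ℚ) (p : P2) {T U : TM} (hT : Ap x y f T) (hU : Ap x y h U) :
    Ap x y ((c : ℝ) * ev x y p * f + h) (mp c p T U) := by
  unfold mp
  cases p with
  | nil => simpa using hU
  | cons t q =>
    simp only
    have h1 := Ap_pol x y (scP c (t :: q))
    rw [ev_scP] at h1
    exact Ap_mul hd h1 hT hU

/-- adds the entry `m, n` of the shift form -/
def stp (D : DP) (m n : ℤ) (a b : List KT) (T : T2) : T2 :=
  if (n - m) % 3 = 0 ∧ m + n ≠ 0 then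
    let s := m + n
    let j := (n - m) / 3
    match pr3 a b ⟨[], [], []⟩ with
    | ⟨X, Y, N⟩ =>
      match X, Y, N with
      | [], [], [] => T
      | X, Y, N =>
        let K := jz j (-(s : ℚ) / 4)
        let F := mp (4 / s) X (mul K (cs D ((s : ℚ) / 2)) ⟨[], []⟩) T.F
        let G := mp (4 / s) Y (mul K (sn D ((s : ℚ) / 2)) ⟨[], []⟩) T.G
        ⟨⟨F.p, me1 j.natAbs 0 (4 / (s : ℚ) * (((s.natAbs : ℚ) / 4) ^ j.natAbs / (j.natAbs.factorial : ℚ))) N F.e⟩, G⟩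
  else T

/-- the closed kernel with the phase `π` -/
theorem CS_pi (d k : ℝ) (m n : ℤ) (h : (n - m) % 3 = 0) : CS d k Real.pi m n =
    ((Real.cos (((m + n : ℤ) : ℝ) / 2 * d) : ℂ) - (Real.sin (((m + n : ℤ) : ℝ) / 2 * d) : ℂ) * Complex.I) *
      (J ((n - m) / 3) (2 * (-((m + n : ℤ) : ℝ) / 4) * k) : ℂ) := by
  unfold CS
  rw [if_pos (Int.dvd_of_emod_eq_zero h)]
  have e1 : ee (-(((m + n : ℤ) : ℝ) * d / 2)) =
      ((Real.cos (((m + n : ℤ) : ℝ) / 2 * d) : ℂ) - (Real.sin (((m + n : ℤ) : ℝ) / 2 * d) : ℂ) * Complex.I) := by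
    rw [ee_eq, Real.cos_neg, Real.sin_neg]
    rw [show ((m + n : ℤ) : ℝ) * d / 2 = ((m + n : ℤ) : ℝ) / 2 * d by ring]
    push_cast
    ring
  set j := (n - m) / 3 with hj
  have e2 : ee ((j : ℝ) * Real.pi) = (((-1 : ℝ) ^ j : ℝ) : ℂ) := by
    rw [ee_eq]
    have h1 : Real.cos ((j : ℝ) * Real.pi) = (-1 : ℝ) ^ j := by
      have := Real.cos_int_mul_pi j
      exact this
    have h2 : Real.sin ((j : ℝ) * Real.pi) = 0 := Real.sin_int_mul_pi j
    rw [h1, h2]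
    simp
  have e3 : J j (2 * (-((m + n : ℤ) : ℝ) / 4) * k) = (-1 : ℝ) ^ j * J j (((m + n : ℤ) : ℝ) * k / 2) := by
    rw [← Helper31.Bes.J_neg_ord, ← Helper31.Bes.J_neg_arg]
    congr 1
    ring
  rw [e1, e2, e3]
  push_cast
  ring

/-- one entry -/
theorem Ap2_stp {x : ℝ} {B : ℂ} (hd : Dm x ‖B‖) (dp : P2) (m n : ℤ) (a b : List KT) (al bl : ℤ → ℂ)
    (ha : al m = kv x B a) (hb : bl n = kv x B b) (hs : |(((m + n : ℤ) : ℝ) / 2) * ev x ‖B‖ dp| ≤ 1)
    (v : ℝ) (T : T2) (hT : Ap2 x ‖B‖ v T) :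
    Ap2 x ‖B‖ (ent (ev x ‖B‖ dp) x Real.pi al bl m n + v) (stp (dps dp) m n a b T) := by
  unfold stp
  by_cases hc : (n - m) % 3 = 0 ∧ m + n ≠ 0
  · rw [if_pos hc]
    simp only
    set s : ℤ := m + n with hsdef
    set j := (n - m) / 3 with hj
    have hpr := Pr_prod hd.x0 B a b
    rcases hR : pr3 a b ⟨[], [], []⟩ with ⟨X, Y, N⟩
    rw [hR] at hpr
    obtain ⟨ν, hv, hν⟩ := hpr
    simp only at hv hν
    have hent : ent (ev x ‖B‖ dp) x Real.pi al bl m n = 4 / (s : ℝ) *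
        (((ev x ‖B‖ X : ℂ) + (ev x ‖B‖ Y : ℂ) * s3 + ν) *
          (((Real.cos ((s : ℝ) / 2 * ev x ‖B‖ dp) : ℂ) - (Real.sin ((s : ℝ) / 2 * ev x ‖B‖ dp) : ℂ) * Complex.I) *
      (J j (2 * (-(s : ℝ) / 4) * x) : ℂ))).re := by
      unfold ent
      rw [ha, hb, hv, CS_pi _ _ m n hc.1]
    set c := Real.cos ((s : ℝ) / 2 * ev x ‖B‖ dp) with hcdef
    set σ := Real.sin ((s : ℝ) / 2 * ev x ‖B‖ dp) with hσdef
    set Jv := J j (2 * (-(s : ℝ) / 4) * x) with hJv
    set ξ := ev x ‖B‖ X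
    set η := ev x ‖B‖ Y
    have hval : ent (ev x ‖B‖ dp) x Real.pi al bl m n =
        (4 / (s : ℝ)) * ξ * (Jv * c + 0) + Real.sqrt 3 * ((4 / (s : ℝ)) * η * (Jv * σ + 0)) +
          4 / (s : ℝ) * (Jv * (ν * ((c : ℂ) - (σ : ℂ) * Complex.I)).re) := by
      rw [hent]
      have e1 : (((ξ : ℂ) + (η : ℂ) * s3 + ν) * (((c : ℂ) - (σ : ℂ) * Complex.I) * (Jv : ℂ))).re =
          Jv * (ξ * c + Real.sqrt 3 * η * σ + (ν * ((c : ℂ) - (σ : ℂ) * Complex.I)).re) := by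
        have e2 : ((ξ : ℂ) + (η : ℂ) * s3 + ν) * (((c : ℂ) - (σ : ℂ) * Complex.I) * (Jv : ℂ)) =
            (Jv : ℂ) * (((ξ : ℂ) + (η : ℂ) * s3) * ((c : ℂ) - (σ : ℂ) * Complex.I) +
              ν * ((c : ℂ) - (σ : ℂ) * Complex.I)) := by ring
        rw [e2, Complex.re_ofReal_mul, Complex.add_re]
        have e3 : (((ξ : ℂ) + (η : ℂ) * s3) * ((c : ℂ) - (σ : ℂ) * Complex.I)).re =
            ξ * c + Real.sqrt 3 * η * σ := by
          unfold s3
          simp only [Complex.mul_re, Complex.add_re, Complex.sub_re, Complex.add_im, Complex.sub_im,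
            Complex.mul_im, Complex.ofReal_re, Complex.ofReal_im, Complex.I_re, Complex.I_im]
          ring
        rw [e3]
      rw [e1]
      ring
    have hbd : |4 / (s : ℝ) * (Jv * (ν * ((c : ℂ) - (σ : ℂ) * Complex.I)).re)| ≤
        |((4 / (s : ℚ) * (((s.natAbs : ℚ) / 4) ^ j.natAbs / (j.natAbs.factorial : ℚ)) : ℚ) : ℝ)| *
          mv x ‖B‖ (j.natAbs, 0) * av x ‖B‖ N := by
      have h1 : |(ν * ((c : ℂ) - (σ : ℂ) * Complex.I)).re| ≤ av x ‖B‖ N := by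
        refine (Complex.abs_re_le_norm _).trans ?_
        rw [norm_mul]
        have h2 : ‖(c : ℂ) - (σ : ℂ) * Complex.I‖ = 1 := by
          have h3 : (c : ℂ) - (σ : ℂ) * Complex.I = ee (-((s : ℝ) / 2 * ev x ‖B‖ dp)) := by
            rw [ee_eq, Real.cos_neg, Real.sin_neg, ← hcdef, ← hσdef, Complex.ofReal_neg]
            ring
          rw [h3, norm_ee]
        rw [h2, mul_one]
        exact hν
      have h4 : |Jv| ≤ (((s.natAbs : ℝ) / 4) ^ j.natAbs / (j.natAbs.factorial : ℝ)) * x ^ j.natAbs := by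
        have h5 := Helper31.Bes.J1 j (2 * (-(s : ℝ) / 4) * x)
        refine h5.trans (le_of_eq ?_)
        have h6 : |2 * (-(s : ℝ) / 4) * x| / 2 = ((s.natAbs : ℝ) / 4) * x := by
          rw [abs_mul, abs_of_nonneg hd.x0, abs_mul, abs_div, abs_neg, Nat.cast_natAbs]
          push_cast
          rw [abs_of_pos (show (0 : ℝ) < 2 by norm_num), abs_of_pos (show (0 : ℝ) < 4 by norm_num)]
          ring
        rw [h6, mul_pow]
        ring
      rw [abs_mul, abs_mul]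
      have h7 : |((4 / (s : ℚ) * (((s.natAbs : ℚ) / 4) ^ j.natAbs / (j.natAbs.factorial : ℚ)) : ℚ) : ℝ)| =
          |4 / (s : ℝ)| * (((s.natAbs : ℝ) / 4) ^ j.natAbs / (j.natAbs.factorial : ℝ)) := by
        push_cast
        rw [abs_mul]
        congr 1
        exact abs_of_nonneg (by positivity)
      rw [h7]
      unfold mv
      simp only [pow_zero, mul_one]
      calc |4 / (s : ℝ)| * (|Jv| * |(ν * ((c : ℂ) - (σ : ℂ) * Complex.I)).re|)
          ≤ |4 / (s : ℝ)| * (((((s.natAbs : ℝ) / 4) ^ j.natAbs / (j.natAbs.factorial : ℝ)) * x ^ j.natAbs)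
            * av x ‖B‖ N) := by
            refine mul_le_mul_of_nonneg_left ?_ (abs_nonneg _)
            exact mul_le_mul h4 h1 (abs_nonneg _) ((abs_nonneg _).trans h4)
        _ = _ := by ring
    obtain ⟨f, g, hfg, hF, hG⟩ := hT
    have mJ := Ap_jz hd j (-(s : ℚ) / 4)
    have mC := Ap_cs hd dp ((s : ℚ) / 2) (by push_cast; exact hs)
    have mS := Ap_sn hd dp ((s : ℚ) / 2) (by push_cast; exact hs)
    push_cast at mJ mC mS
    rw [← hcdef] at mC
    rw [← hσdef] at mS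
    rw [← hJv] at mJ
    have t1 := Ap_mp hd (4 / (s : ℚ)) X (Ap_mul hd mJ mC (Ap_zero x ‖B‖)) hF
    have t2 := Ap_mp hd (4 / (s : ℚ)) Y (Ap_mul hd mJ mS (Ap_zero x ‖B‖)) hG
    push_cast at t1 t2
    have t3 : Ap x ‖B‖ (4 / (s : ℝ) * (Jv * (ν * ((c : ℂ) - (σ : ℂ) * Complex.I)).re) +
        (4 / (s : ℝ) * ξ * (Jv * c + 0) + f))
        ⟨(mp (4 / s) X (mul (jz j (-(s : ℚ) / 4)) (cs (dps dp) ((s : ℚ) / 2)) ⟨[], []⟩) T.F).p,
          me1 j.natAbs 0 (4 / (s : ℚ) * (((s.natAbs : ℚ) / 4) ^ j.natAbs / (j.natAbs.factorial : ℚ))) N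
          (mp (4 / s) X (mul (jz j (-(s : ℚ) / 4)) (cs (dps dp) ((s : ℚ) / 2)) ⟨[], []⟩) T.F).e⟩ := by
      unfold Ap at t1 ⊢
      simp only
      have h := me1_le hd j.natAbs 0 (4 / (s : ℚ) * (((s.natAbs : ℚ) / 4) ^ j.natAbs / (j.natAbs.factorial : ℚ))) N
        (mp (4 / s) X (mul (jz j (-(s : ℚ) / 4)) (cs (dps dp) ((s : ℚ) / 2)) ⟨[], []⟩) T.F).e
      refine le_trans ?_ h
      refine le_trans ?_ (add_le_add hbd t1)
      refine le_trans (le_of_eq ?_) (abs_add_le _ _)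
      congr 1
      ring
    have hmain : Ap2 x ‖B‖ (ent (ev x ‖B‖ dp) x Real.pi al bl m n + v)
        ⟨⟨(mp (4 / s) X (mul (jz j (-(s : ℚ) / 4)) (cs (dps dp) ((s : ℚ) / 2)) ⟨[], []⟩) T.F).p,
          me1 j.natAbs 0 (4 / (s : ℚ) * (((s.natAbs : ℚ) / 4) ^ j.natAbs / (j.natAbs.factorial : ℚ))) N
          (mp (4 / s) X (mul (jz j (-(s : ℚ) / 4)) (cs (dps dp) ((s : ℚ) / 2)) ⟨[], []⟩) T.F).e⟩,
          mp (4 / s) Y (mul (jz j (-(s : ℚ) / 4)) (sn (dps dp) ((s : ℚ) / 2)) ⟨[], []⟩) T.G⟩ :=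
      ⟨_, _, by rw [hval, hfg]; ring, t3, t2⟩
    rcases X with _ | ⟨t, X'⟩
    · rcases Y with _ | ⟨t', Y'⟩
      · rcases N with _ | ⟨t'', N'⟩
        · simp only
          have h0 : ent (ev x ‖B‖ dp) x Real.pi al bl m n = 0 := by
            rw [hval]
            have h1 : ν = 0 := by
              rw [av_nil] at hν
              exact norm_le_zero_iff.1 hν
            have h2 : ξ = 0 := rfl
            have h3 : η = 0 := rfl
            rw [h1, h2, h3]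
            simp
          rw [h0, zero_add]
          exact ⟨f, g, hfg, hF, hG⟩
        · exact hmain
      · exact hmain
    · exact hmain
  · rw [if_neg hc]
    have h0 : ent (ev x ‖B‖ dp) x Real.pi al bl m n = 0 := by
      unfold ent
      by_cases h1 : m + n = 0
      · rw [h1]
        simp
      · have h2 : ¬ (3 : ℤ) ∣ n - m := by
          intro h3
          exact hc ⟨Int.emod_eq_zero_of_dvd h3, h1⟩
        unfold CS
        rw [if_neg h2]
        simp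
    rw [h0, zero_add]
    exact hT

end Pool.Agent.Helper99.SH
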