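import Pool.Agent.Helper99.SH.TMS

/-!
# The shift form of trigonometric polynomials: the whole form
-/

set_option autoImplicit false

namespace Pool.Agent.Helper99.SH

open Helper49.LT hiding sg
open Helper31.Bes (J)
open Pool.Agent.Helper99.RC

/-- a harmonic `m` with the two polynomials -/
structure Hm where
  m : ℤ
  a : List KT
  b : List KT
deriving DecidableEq

/-- the row `m` -/
def row (D : DP) (m : ℤ) (a : List KT) : List Hm → T2 → T2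
  | [], T => T
  | h :: l, T => row D m a l (stp D m h.m a h.b T)

/-- all rows -/
def dbl (D : DP) (L : List Hm) : List Hm → T2 → T2
  | [], T => T
  | h :: l, T => dbl D L l (row D h.m h.a L T)

/-- adds `‖a‖²/m` -/
def sqd (m : ℤ) (a : List KT) (T : T2) : T2 :=
  let R := pr3 a a ⟨[], [], []⟩
  let F := mp (1 / (m : ℚ)) R.X (ct 1) T.F
  ⟨⟨F.p, me1 0 0 (1 / (m : ℚ)) R.N F.e⟩, T.G⟩

/-- the diagonal -/
def dia : List Hm → T2 → T2
  | [], T => T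
  | h :: l, T => dia l (sqd h.m h.b (sqd h.m h.a T))

/-- adds `2 d Im (a conj b)` -/
def zer (D : P2) (a b : List KT) (T : T2) : T2 :=
  let R := pr3 a b ⟨[], [], []⟩
  let G := mp 2 R.Y ⟨D, []⟩ T.G
  ⟨⟨T.F.p, mep (scP 2 D) R.N T.F.e⟩, G⟩

/-- the whole form -/
def tot (d : P2) (L : List Hm) (a0 b0 : List KT) : T2 :=
  zer d a0 b0 (dbl (dps d) L L (dia L ⟨⟨[], []⟩, ⟨[], []⟩⟩))

/-- the list describes the sequences -/
def Ds (x : ℝ) (B : ℂ) (al bl : ℤ → ℂ) (L : List Hm) : Prop :=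
  ∀ h ∈ L, al h.m = kv x B h.a ∧ bl h.m = kv x B h.b

variable {x : ℝ} {B : ℂ}

theorem Ap2_row (hd : Dm x ‖B‖) (dp : P2) (al bl : ℤ → ℂ) (m : ℤ) (a : List KT) (ha : al m = kv x B a) :
    ∀ (L : List Hm), Ds x B al bl L → (∀ h ∈ L, |(((m + h.m : ℤ) : ℝ) / 2) * ev x ‖B‖ dp| ≤ 1) →
    ∀ (v : ℝ) (T : T2), Ap2 x ‖B‖ v T →
    Ap2 x ‖B‖ ((L.map fun h => ent (ev x ‖B‖ dp) x Real.pi al bl m h.m).sum + v) (row (dps dp) m a L T)
  | [], _, _, v, T, hT => by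
    unfold row
    rw [List.map_nil, List.sum_nil, zero_add]
    exact hT
  | h :: l, hD, hs, v, T, hT => by
    unfold row
    have h1 := Ap2_stp hd dp m h.m a h.b al bl ha (hD h (by simp)).2 (hs h (by simp)) v T hT
    have h2 := Ap2_row hd dp al bl m a ha l (fun g hg => hD g (by simp [hg])) (fun g hg => hs g (by simp [hg]))
      _ _ h1
    rw [List.map_cons, List.sum_cons]
    have e : ent (ev x ‖B‖ dp) x Real.pi al bl m h.m +
        (l.map fun h => ent (ev x ‖B‖ dp) x Real.pi al bl m h.m).sum + v =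
        (l.map fun h => ent (ev x ‖B‖ dp) x Real.pi al bl m h.m).sum +
          (ent (ev x ‖B‖ dp) x Real.pi al bl m h.m + v) := by ring
    rw [e]
    exact h2

theorem Ap2_dbl (hd : Dm x ‖B‖) (dp : P2) (al bl : ℤ → ℂ) (L : List Hm) (hD : Ds x B al bl L) :
    ∀ (M : List Hm), Ds x B al bl M →
    (∀ g ∈ M, ∀ h ∈ L, |(((g.m + h.m : ℤ) : ℝ) / 2) * ev x ‖B‖ dp| ≤ 1) →
    ∀ (v : ℝ) (T : T2), Ap2 x ‖B‖ v T →
    Ap2 x ‖B‖ ((M.map fun g => (L.map fun h => ent (ev x ‖B‖ dp) x Real.pi al bl g.m h.m).sum).sum + v)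
      (dbl (dps dp) L M T)
  | [], _, _, v, T, hT => by
    unfold dbl
    rw [List.map_nil, List.sum_nil, zero_add]
    exact hT
  | g :: l, hM, hs, v, T, hT => by
    unfold dbl
    have h1 := Ap2_row hd dp al bl g.m g.a (hM g (by simp)).1 L hD (hs g (by simp)) v T hT
    have h2 := Ap2_dbl hd dp al bl L hD l (fun g' hg => hM g' (by simp [hg])) (fun g' hg => hs g' (by simp [hg]))
      _ _ h1
    rw [List.map_cons, List.sum_cons]
    set S := (L.map fun h => ent (ev x ‖B‖ dp) x Real.pi al bl g.m h.m).sum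
    set S' := (l.map fun g => (L.map fun h => ent (ev x ‖B‖ dp) x Real.pi al bl g.m h.m).sum).sum
    have e : S + S' + v = S' + (S + v) := by ring
    rw [e]
    exact h2

theorem Ap2_sqd (hd : Dm x ‖B‖) (m : ℤ) (a : List KT) (α : ℂ) (ha : α = kv x B a) (v : ℝ) (T : T2)
    (hT : Ap2 x ‖B‖ v T) : Ap2 x ‖B‖ (‖α‖ ^ 2 / (m : ℝ) + v) (sqd m a T) := by
  obtain ⟨f, g, hfg, hF, hG⟩ := hT
  obtain ⟨ν, hv, hν⟩ := Pr_prod hd.x0 B a a
  unfold sqd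
  simp only
  set R := pr3 a a ⟨[], [], []⟩
  have h1 : ‖α‖ ^ 2 = ev x ‖B‖ R.X + ν.re := by
    have h2 : ((‖α‖ ^ 2 : ℝ) : ℂ) = kv x B a * (starRingEnd ℂ) (kv x B a) := by
      rw [ha, Complex.mul_conj, Complex.normSq_eq_norm_sq]
    have h3 := congrArg Complex.re (h2.trans hv)
    rw [Complex.ofReal_re] at h3
    rw [h3]
    unfold s3
    simp only [Complex.mul_re, Complex.add_re, Complex.mul_im, Complex.ofReal_re, Complex.ofReal_im,
      Complex.I_re, Complex.I_im]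
    ring
  have t1 := Ap_mp hd (1 / (m : ℚ)) R.X (Ap_ct x ‖B‖ 1) hF
  have t2 : |1 / (m : ℝ) * ν.re| ≤ |((1 / (m : ℚ) : ℚ) : ℝ)| * av x ‖B‖ R.N := by
    rw [abs_mul]
    push_cast
    exact mul_le_mul_of_nonneg_left ((Complex.abs_re_le_norm _).trans hν) (abs_nonneg _)
  refine ⟨1 / (m : ℝ) * ν.re + (1 / (m : ℝ) * ev x ‖B‖ R.X * 1 + f), g, ?_, ?_, hG⟩
  · rw [h1, hfg]
    ring
  · have t3 := Ap_me1 hd t1 (1 / (m : ℚ)) R.N t2
    push_cast at t3 ⊢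
    exact t3

theorem Ap2_dia (hd : Dm x ‖B‖) (al bl : ℤ → ℂ) : ∀ (L : List Hm), Ds x B al bl L → ∀ (v : ℝ) (T : T2),
    Ap2 x ‖B‖ v T →
    Ap2 x ‖B‖ ((L.map fun h => (‖al h.m‖ ^ 2 + ‖bl h.m‖ ^ 2) / (h.m : ℝ)).sum + v) (dia L T)
  | [], _, v, T, hT => by
    unfold dia
    rw [List.map_nil, List.sum_nil, zero_add]
    exact hT
  | h :: l, hD, v, T, hT => by
    unfold dia
    have h1 := Ap2_sqd hd h.m h.a (al h.m) (hD h (by simp)).1 v T hT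
    have h2 := Ap2_sqd hd h.m h.b (bl h.m) (hD h (by simp)).2 _ _ h1
    have h3 := Ap2_dia hd al bl l (fun g hg => hD g (by simp [hg])) _ _ h2
    rw [List.map_cons, List.sum_cons]
    set S' := (l.map fun h => (‖al h.m‖ ^ 2 + ‖bl h.m‖ ^ 2) / (h.m : ℝ)).sum
    have e : (‖al h.m‖ ^ 2 + ‖bl h.m‖ ^ 2) / (h.m : ℝ) + S' + v =
        S' + (‖bl h.m‖ ^ 2 / (h.m : ℝ) + (‖al h.m‖ ^ 2 / (h.m : ℝ) + v)) := by ring
    rw [e]
    exact h3

theorem Ap2_zer (hd : Dm x ‖B‖) (dp : P2) (a b : List KT) (α β : ℂ) (ha : α = kv x B a) (hb : β = kv x B b)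
    (v : ℝ) (T : T2) (hT : Ap2 x ‖B‖ v T) :
    Ap2 x ‖B‖ (2 * ev x ‖B‖ dp * (α * (starRingEnd ℂ) β).im + v) (zer dp a b T) := by
  obtain ⟨f, g, hfg, hF, hG⟩ := hT
  obtain ⟨ν, hv, hν⟩ := Pr_prod hd.x0 B a b
  unfold zer
  simp only
  set R := pr3 a b ⟨[], [], []⟩
  have h1 : (α * (starRingEnd ℂ) β).im = Real.sqrt 3 * ev x ‖B‖ R.Y + ν.im := by
    rw [ha, hb, hv]
    unfold s3
    simp only [Complex.add_im, Complex.mul_re, Complex.mul_im, Complex.ofReal_re, Complex.ofReal_im,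
      Complex.I_re, Complex.I_im]
    ring
  have t1 := Ap_mp hd 2 R.Y (Ap_pol x ‖B‖ dp) hG
  refine ⟨2 * ev x ‖B‖ dp * ν.im + f, 2 * ev x ‖B‖ R.Y * ev x ‖B‖ dp + g, ?_, ?_, ?_⟩
  · rw [h1, hfg]
    ring
  · unfold Ap at hF ⊢
    simp only
    have h := mep_le hd (scP 2 dp) R.N T.F.e
    refine le_trans ?_ h
    have h2 : |2 * ev x ‖B‖ dp * ν.im| ≤ av x ‖B‖ (scP 2 dp) * av x ‖B‖ R.N := by
      rw [abs_mul]
      have h3 := abs_ev_le hd.x0 hd.y0 (scP 2 dp)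
      rw [ev_scP] at h3
      push_cast at h3
      exact mul_le_mul h3 ((Complex.abs_im_le_norm _).trans hν) (abs_nonneg _)
        (av_nonneg hd.x0 hd.y0 _)
    refine le_trans ?_ (add_le_add h2 hF)
    refine le_trans (le_of_eq ?_) (abs_add_le _ _)
    congr 1
    ring
  · push_cast at t1
    exact t1

/-- the whole form -/
theorem Ap2_tot (hd : Dm x ‖B‖) (dp : P2) (al bl : ℤ → ℂ) (L : List Hm) (a0 b0 : List KT)
    (hD : Ds x B al bl L) (hN : (L.map Hm.m).Nodup) (ha : al 0 = kv x B a0) (hb : bl 0 = kv x B b0)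
    (hs : ∀ g ∈ L, ∀ h ∈ L, |(((g.m + h.m : ℤ) : ℝ) / 2) * ev x ‖B‖ dp| ≤ 1) :
    Ap2 x ‖B‖ (NS (ev x ‖B‖ dp) x Real.pi (L.map Hm.m).toFinset al bl) (tot dp L a0 b0) := by
  have h0 : Ap2 x ‖B‖ 0 ⟨⟨[], []⟩, ⟨[], []⟩⟩ := ⟨0, 0, by simp, Ap_zero _ _, Ap_zero _ _⟩
  have h1 := Ap2_dia hd al bl L hD _ _ h0
  have h2 := Ap2_dbl hd dp al bl L hD L hD hs _ _ h1
  have h3 := Ap2_zer hd dp a0 b0 (al 0) (bl 0) ha hb _ _ h2
  unfold tot
  have e : NS (ev x ‖B‖ dp) x Real.pi (L.map Hm.m).toFinset al bl =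
      2 * ev x ‖B‖ dp * (al 0 * (starRingEnd ℂ) (bl 0)).im +
      ((L.map fun g => (L.map fun h => ent (ev x ‖B‖ dp) x Real.pi al bl g.m h.m).sum).sum +
      ((L.map fun h => (‖al h.m‖ ^ 2 + ‖bl h.m‖ ^ 2) / (h.m : ℝ)).sum + 0)) := by
    unfold NS
    rw [List.sum_toFinset _ hN, List.sum_toFinset _ hN]
    simp only [List.sum_toFinset _ hN, List.map_map]
    have e1 : (L.map ((fun m : ℤ => (‖al m‖ ^ 2 + ‖bl m‖ ^ 2) / (m : ℝ)) ∘ Hm.m)) =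
        (L.map fun h => (‖al h.m‖ ^ 2 + ‖bl h.m‖ ^ 2) / (h.m : ℝ)) := rfl
    rw [e1]
    have e2 : (L.map ((fun m : ℤ => (L.map ((fun n => ent (ev x ‖B‖ dp) x Real.pi al bl m n) ∘ Hm.m)).sum) ∘ Hm.m)) =
        (L.map fun g => (L.map fun h => ent (ev x ‖B‖ dp) x Real.pi al bl g.m h.m).sum) := rfl
    rw [e2]
    ring
  rw [e]
  exact h3

end Pool.Agent.Helper99.SH
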