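import Pool.Agent.Helper99.SH.VNSK1
import Pool.Agent.Helper99.SH.VNSK2
import Pool.Agent.Helper99.SH.VNSK3
import Pool.Agent.Helper99.SH.VNSK4
import Pool.Agent.Helper99.SH.VNSK5

/-!
# The shift form of the base of zone I: the evaluation of the whole form (kernel)

The double sum is evaluated in five blocks (modules `VNSK1` to `VNSK5`).
-/

set_option autoImplicit false
set_option maxRecDepth 100000

namespace Pool.Agent.Helper99.SH

theorem LLI_eq : bd DI HSI = LLI := by decide +kernel
theorem A0I_eq : la DI 0 = A0I := by decide +kernel
theorem B0I_eq : lb DI 0 = B0I := by decide +kernel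
theorem chkI : chk DI HSI = true := by decide +kernel

/-- the part without `√3`: polynomial -/
def FpI : P2 := [((2, 6), 686459969827/288288000000), ((0, 4), -6586043/63360000), ((2, 4), -5262086077/591360000), ((4, 4), 
    -6598616276983/709632000000), ((2, 2), 14730697/3360000), ((4, 2), 263953/107520), ((6, 2), 
    -22954222859/8064000000), ((4, 0), -742943/280000), ((0, 2), 3/20), ((2, 0), -83/50), ((0, 0), 4), ((0, 8), 
    -490801/24000000), ((8, 0), 23754036437/3072000000), ((6, 0), 18038419/5760000), ((0, 6), 131/250)]

/-- the part without `√3`: error -/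
def FeI : P2 := [((5, 3), 1326317009/30720000), ((5, 5), 
    24791622349718737634380827527502509261/418372155591732630650880000000000000), ((4, 6), 
    1519228854839736668621/10066329600000000000), ((2, 8), 1037021029855164001/78643200000000000), ((7, 3), 
    134094351931/3686400000), ((6, 4), 62125246883398758457506801759986889137/79689934398425262981120000000000000), 
    ((0, 10), 2861099326211/15360000000000), ((8, 2), 
    32107373683224559392103144926111399893/59767450798818947235840000000000000), ((10, 0), 
    33988824464656638966616958881303193/1867732837463092101120000000000000)]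

/-- the part with `√3`: polynomial -/
def GpI : P2 := [((2, 4), -28794119/12800000), ((0, 6), -5557/320000), ((4, 4), 371462159/51200000), ((2, 6), 
    10252097/6400000), ((4, 2), 17942497/3200000), ((6, 2), -778584557/38400000), ((6, 0), -636089/400000), ((8, 
    0), -42617997/25600000), ((2, 2), -1871/2000), ((0, 4), 11/50), ((0, 8), -311/1875), ((4, 0), 1989/2000)]

/-- the part with `√3`: error -/
def GeI : P2 := [((4, 6), 234168438829012729561/2013265920000000000), ((2, 8), 596962373406111731/78643200000000000), ((5, 5), 
    1030421196534352147582377703859584121/39844967199212631490560000000000000), ((6, 4), 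
    1299479458209515918137621891619460292709/3346977244733861045207040000000000000), ((0, 10), 
    323343198823/25600000000000), ((8, 2), 
    123488882967507665147151816293131387481/418372155591732630650880000000000000), ((10, 0), 
    24643799003055177318553978956169757/2179021643706940784640000000000000)]

theorem dbl_app (D : DP) (L : List Hm) : ∀ (M N : List Hm) (T : T2),
    dbl D L (M ++ N) T = dbl D L N (dbl D L M T)
  | [], _, _ => rfl
  | h :: l, N, T => dbl_app D L l N (row D h.m h.a L T)

theorem LLI_bk : LLI = bkI 0 ++ bkI 1 ++ bkI 2 ++ bkI 3 ++ bkI 4 := by decide +kernel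

theorem diaI : dia LLI ⟨⟨[], []⟩, ⟨[], []⟩⟩ = SI0 := by decide +kernel

theorem zerI : zer dPI A0I B0I SI5 = ⟨⟨FpI, FeI⟩, ⟨GpI, GeI⟩⟩ := by decide +kernel

theorem dblI : dbl (dps dPI) LLI LLI SI0 = SI5 := by
  have h : dbl (dps dPI) LLI (bkI 0 ++ bkI 1 ++ bkI 2 ++ bkI 3 ++ bkI 4) SI0 = SI5 := by
    rw [dbl_app, dbl_app, dbl_app, dbl_app, blkI1, blkI2, blkI3, blkI4, blkI5]
  rwa [← LLI_bk] at h

/-- THE EVALUATION -/
theorem tot_eq : tot dPI LLI A0I B0I = ⟨⟨FpI, FeI⟩, ⟨GpI, GeI⟩⟩ := by
  unfold tot
  rw [diaI, dblI, zerI]

end Pool.Agent.Helper99.SH
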