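import Pool.Agent.Helper99.SH.VNS1
import Pool.Agent.Helper99.SH.VNSK
import Pool.Agent.Helper33.SH.Inst

/-!
# The value of the shift form at the base of zone I

V_NS: for 0 ≤ A ≤ 1/4, |B| ≤ 1/8 the number NS of (b0I A B, z0I A B) is the explicit polynomial
`QNS A |B|` of degree `8` up to the explicit error `ENS A |B|` (degree `10` and the nonresonant term `A^5 |B|^3`).
-/

set_option autoImplicit false

open MeasureTheory Set Filter Topology

namespace Pool.Agent.Helper99.SH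

open Helper49.LT hiding sg s3
open Helper56.RC (fc)
open Helper87.RC (BM fc_add fc_cmul)
open Helper95.RC (wc pc rc sc kq c1 c2 NF)
open Helper95.SH (Dat)
open Helper49.Sharp
open Pool.Agent.Helper20.RC (wR)
open Pool.Agent.Helper33.SH (PI ZC cI z0I b0I dI)
open Pool.Agent.Helper43.SH (zB zp b2p b3p b2B b3B bB BC)

/-! ### the lists -/

theorem two_re (z : ℂ) : ((2 * z.re : ℝ) : ℂ) = z + (starRingEnd ℂ) z := by
  rw [Complex.add_conj]

theorem sq_norm_c (a : ℂ) : ((‖a‖ ^ 2 : ℝ) : ℂ) = a * (starRingEnd ℂ) a := by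
  rw [Complex.mul_conj, Complex.normSq_eq_norm_sq]

theorem b2_rv (u v : ℂ) : (b2p cI u v : ℂ) = rv u v b2I := by
  unfold b2p
  rw [Complex.ofReal_add, two_re, Complex.ofReal_add, Complex.ofReal_mul, Complex.ofReal_mul, sq_norm_c, sq_norm_c]
  simp only [map_add, map_mul, Complex.conj_ofReal, Complex.conj_conj]
  unfold b2I cI
  simp only [rv_cons, rv_nil, rt, pow_zero, pow_one]
  push_cast
  ring

theorem b3_rv (u v : ℂ) : (b3p cI u v : ℂ) = Complex.I * rv u v b3I := by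
  unfold b3p
  rw [two_re]
  simp only [map_add, map_mul, Complex.conj_ofReal, Complex.conj_conj, Complex.conj_I]
  unfold b3I cI
  simp only [rv_cons, rv_nil, rt, pow_zero, pow_one]
  push_cast
  ring

theorem z_rv (u v : ℂ) : zp u v = rv u v zI := by
  unfold zp zI
  simp only [rv_cons, rv_nil, rt, pow_zero, pow_one]
  push_cast
  ring

theorem w_tf (A : ℝ) (B : ℂ) (t : ℝ) : (wR (-2 * A * (starRingEnd ℂ) B) 0 0 t : ℂ) = tf A B WI t := by
  rw [Helper95.SH.wR_c]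
  unfold tf WI
  simp only [rv_cons, rv_nil, rt, pow_zero, pow_one, map_mul, Complex.conj_ofReal, cee, Complex.conj_conj, map_neg]
  have e1 : ee (((2 : ℤ) : ℝ) * t) = ee (-3 * t) * ee (-(-5 * t)) := by
    rw [← ee_add]
    congr 1
    push_cast
    ring
  have e2 : ee (((-2 : ℤ) : ℝ) * t) = ee (-(-3 * t)) * ee (-5 * t) := by
    rw [← ee_add]
    congr 1
    push_cast
    ring
  have e3 : (starRingEnd ℂ) (2 : ℂ) = 2 := Complex.conj_ofReal 2
  rw [e1, e2, e3]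
  push_cast
  ring

theorem tf_mul (A : ℝ) (B : ℂ) (l M : List RT) (t : ℝ) : tf A B (rmu l M) t = tf A B l t * tf A B M t := by
  unfold tf
  rw [rv_rmu]

theorem ev_dPI (x y : ℝ) : ev x y dPI = 17 / 20 * x ^ 2 - 2 / 5 * y ^ 2 := by
  unfold dPI
  simp only [ev_cons, ev_nil, mv, pow_zero]
  push_cast
  ring

/-- the coefficient sequences of the base are given by the lists -/
theorem Fl_I (c : ZC) (A : ℝ) (B : ℂ) : Fl A B DI (wc (PI c A B).w) (pc (PI c A B).w (b0I A B))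
    (rc (PI c A B).w (b0I A B)) (sc (PI c A B).w (z0I A B)) := by
  have hw : ∀ t, ((PI c A B).w t : ℂ) = tf A B WI t := fun t => w_tf A B t
  refine ⟨fun n => ?_, fun n => ?_, fun n => ?_, fun n => ?_⟩
  · rw [show DI.w = WI from rfl, ← fc_tf]
    unfold wc
    congr 1
    funext t
    exact hw t
  · rw [show DI.p = rmu WI b2I from rfl, ← fc_tf]
    unfold pc
    congr 1
    funext t
    rw [Complex.ofReal_mul, hw, tf_mul]
    congr 1
    show ((bB cI A B t).re : ℂ) = _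
    rw [Pool.Agent.Helper43.SH.bB_re]
    exact b2_rv _ _
  · rw [show DI.r = rmu WI b3I from rfl, ← fc_tf, ← fc_cmul]
    unfold rc
    congr 1
    funext t
    rw [Complex.ofReal_mul, hw, tf_mul]
    have h : ((b0I A B t).im : ℂ) = Complex.I * tf A B b3I t := by
      show ((bB cI A B t).im : ℂ) = _
      rw [Pool.Agent.Helper43.SH.bB_im]
      exact b3_rv _ _
    rw [h]
    ring
  · rw [show DI.s = rmu WI zI from rfl, ← fc_tf]
    unfold sc
    congr 1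
    funext t
    rw [hw, tf_mul]
    congr 1
    exact z_rv _ _

/-! ### the admissibility of the base functions -/

theorem b0I_tf (A : ℝ) (B : ℂ) (t : ℝ) : b0I A B t = tf A B b2I t + (-1 : ℂ) * tf A B b3I t := by
  have h1 : b0I A B t = (b2B cI A B t : ℂ) + (b3B cI A B t : ℂ) * Complex.I := rfl
  rw [h1]
  unfold b2B b3B tf
  rw [b2_rv, b3_rv]
  linear_combination (rv ((A : ℂ) * ee (-3 * t)) (B * ee (-5 * t)) b3I) * Complex.I_sq

/-- the pair b0, z0 is a periodic bounded pair -/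
theorem dat_I (A : ℝ) (B : ℂ) : Dat (b0I A B) (z0I A B) := by
  obtain ⟨C2, h2⟩ := bm_tf A B b2I
  obtain ⟨C3, h3⟩ := bm_tf A B b3I
  obtain ⟨Cz, hz⟩ := bm_tf A B zI
  have hb : b0I A B = fun t => tf A B b2I t + (-1 : ℂ) * tf A B b3I t := funext fun t => b0I_tf A B t
  have hz' : z0I A B = tf A B zI := funext fun t => z_rv _ _
  refine ⟨?_, ?_, fun t => Pool.Agent.Helper43.SH.bB_pi cI A B t, fun t => Pool.Agent.Helper43.SH.zB_pi A B t⟩
  · rw [hb]
    have h4 := h2.add (h3.cmul (-1))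
    exact ⟨h4.m, _, h4.b⟩
  · rw [hz']
    exact ⟨hz.m, _, hz.b⟩

theorem eta_le {A : ℝ} {B : ℂ} (hA : 0 ≤ A) (hA' : A ≤ 1 / 4) (hB : ‖B‖ ≤ 1 / 8) :
    ‖(-2 * A * (starRingEnd ℂ) B : ℂ)‖ ≤ 1 / 4 := by
  have h : ‖(-2 * A * (starRingEnd ℂ) B : ℂ)‖ = 2 * A * ‖B‖ := by
    rw [norm_mul, norm_mul, norm_neg, RCLike.norm_conj, Complex.norm_real, Real.norm_eq_abs, abs_of_nonneg hA]
    norm_num
  rw [h]
  have h0 : 0 ≤ ‖B‖ := norm_nonneg _
  nlinarith

theorem dI_le {A : ℝ} {B : ℂ} (hA : 0 ≤ A) (hA' : A ≤ 1 / 4) (hB : ‖B‖ ≤ 1 / 8) : |dI A B| ≤ 17 / 320 := by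
  have h0 : 0 ≤ ‖B‖ := norm_nonneg _
  have h1 : A ^ 2 ≤ 1 / 16 := by nlinarith
  have h2 : ‖B‖ ^ 2 ≤ 1 / 64 := by nlinarith
  unfold dI
  rw [abs_le]
  constructor <;> nlinarith [sq_nonneg A, sq_nonneg ‖B‖]

/-! ### the model -/

theorem LLm : LLI.map Hm.m = HSI := by decide +kernel
theorem HSn : HSI.Nodup := by decide +kernel
theorem HSb : ∀ m ∈ HSI, |m| ≤ 13 := by decide +kernel

/-- THE MODEL -/
theorem NS_ap (c : ZC) {A : ℝ} {B : ℂ} (hA : 0 ≤ A) (hA' : A ≤ 1 / 4) (hB : ‖B‖ ≤ 1 / 8) :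
    Ap2 A ‖B‖ ((PI c A B).NS (b0I A B) (z0I A B)) ⟨⟨FpI, FeI⟩, ⟨GpI, GeI⟩⟩ := by
  have h0 : 0 ≤ ‖B‖ := norm_nonneg _
  have hd : Dm A ‖B‖ := ⟨hA, hA', h0, hB⟩
  have hF := Fl_I c A B
  have hdd := dI_le hA hA' hB
  have e1 := NS_eq (PI c A B) A B DI (b0I A B) (z0I A B) (dI A B) rfl (eta_le hA hA' hB) rfl
    (by rw [abs_of_nonneg hA]; linarith) (dat_I A B) hF HSI chkI
  rw [e1, ← tot_eq, ← LLm, show dI A B = ev A ‖B‖ dPI by rw [ev_dPI]; rfl]
  have hmem : ∀ h ∈ LLI, h.m ∈ HSI := by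
    intro h hh
    rw [← LLm]
    exact List.mem_map_of_mem hh
  refine Ap2_tot hd dPI _ _ LLI A0I B0I ?_ ?_ ?_ ?_ ?_
  · intro h hh
    rw [← LLI_eq] at hh
    unfold bd at hh
    obtain ⟨m, _, rfl⟩ := List.mem_map.1 hh
    exact ⟨c1_la hF m, c2_lb hF m⟩
  · rw [LLm]
    exact HSn
  · rw [← A0I_eq]
    exact c1_la hF 0
  · rw [← B0I_eq]
    exact c2_lb hF 0
  · intro g hg h hh
    have k1 := HSb _ (hmem g hg)
    have k2 := HSb _ (hmem h hh)
    have k3 : |((g.m + h.m : ℤ) : ℝ) / 2| ≤ 13 := by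
      have k4 : |g.m + h.m| ≤ 26 := (abs_add_le _ _).trans (by linarith)
      rw [abs_div, abs_of_pos (by norm_num : (0 : ℝ) < 2)]
      have k5 : |((g.m + h.m : ℤ) : ℝ)| ≤ 26 := by
        rw [← Int.cast_abs]
        exact_mod_cast k4
      linarith
    have k6 : ev A ‖B‖ dPI = dI A B := by rw [ev_dPI]; rfl
    rw [k6, abs_mul]
    calc |((g.m + h.m : ℤ) : ℝ) / 2| * |dI A B| ≤ 13 * (17 / 320) :=
          mul_le_mul k3 hdd (abs_nonneg _) (by norm_num)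
      _ ≤ 1 := by norm_num

/-! ### THE THEOREM -/

/-- the polynomial (degree `8`) -/
noncomputable def QNS (x y : ℝ) : ℝ :=
  4
    - 83 / 50 * x ^ 2
    + 3 / 20 * y ^ 2
    + (-742943 / 280000 + 1989 / 2000 * Real.sqrt 3) * x ^ 4
    + (14730697 / 3360000 - 1871 / 2000 * Real.sqrt 3) * x ^ 2 * y ^ 2
    + (-6586043 / 63360000 + 11 / 50 * Real.sqrt 3) * y ^ 4
    + (18038419 / 5760000 - 636089 / 400000 * Real.sqrt 3) * x ^ 6
    + (263953 / 107520 + 17942497 / 3200000 * Real.sqrt 3) * x ^ 4 * y ^ 2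
    + (-5262086077 / 591360000 - 28794119 / 12800000 * Real.sqrt 3) * x ^ 2 * y ^ 4
    + (131 / 250 - 5557 / 320000 * Real.sqrt 3) * y ^ 6
    + (23754036437 / 3072000000 - 42617997 / 25600000 * Real.sqrt 3) * x ^ 8
    + (-22954222859 / 8064000000 - 778584557 / 38400000 * Real.sqrt 3) * x ^ 6 * y ^ 2
    + (-6598616276983 / 709632000000 + 371462159 / 51200000 * Real.sqrt 3) * x ^ 4 * y ^ 4
    + (686459969827 / 288288000000 + 10252097 / 6400000 * Real.sqrt 3) * x ^ 2 * y ^ 6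
    + (-490801 / 24000000 - 311 / 1875 * Real.sqrt 3) * y ^ 8

/-- the error: degree `10` and the nonresonant term `A^5 |B|^3` -/
noncomputable def ENS (x y : ℝ) : ℝ :=
  38 * x ^ 10 + 1049 * x ^ 8 * y ^ 2 + 1453 * x ^ 6 * y ^ 4 + 353 * x ^ 4 * y ^ 6 + 27 * x ^ 2 * y ^ 8 +
    1 / 4 * y ^ 10 + 48 * x ^ 5 * y ^ 3

theorem QNS_eq (x y : ℝ) : QNS x y = ev x y FpI + Real.sqrt 3 * ev x y GpI := by
  unfold QNS FpI GpI
  simp only [ev_cons, ev_nil, mv, pow_zero]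
  push_cast
  ring

theorem sqrt3_le : Real.sqrt 3 ≤ 17321 / 10000 := by
  rw [Real.sqrt_le_left (by norm_num)]
  norm_num

theorem ENS_ge {x y : ℝ} (h : Dm x y) : ev x y FeI + Real.sqrt 3 * ev x y GeI ≤ ENS x y := by
  have hx := h.x0
  have hy := h.y0
  have g0 : 0 ≤ ev x y GeI := by
    unfold GeI
    simp only [ev_cons, ev_nil, mv, pow_zero]
    push_cast
    positivity
  have g1 : Real.sqrt 3 * ev x y GeI ≤ 17321 / 10000 * ev x y GeI := mul_le_mul_of_nonneg_right sqrt3_le g0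
  refine (add_le_add_right g1 _).trans ?_
  have m1 : x ^ 7 * y ^ 3 ≤ 1 / 16 * (x ^ 5 * y ^ 3) := by
    have e : x ^ 7 * y ^ 3 = x ^ 2 * (x ^ 5 * y ^ 3) := by ring
    rw [e]
    exact mul_le_mul_of_nonneg_right (by nlinarith [h.x1]) (by positivity)
  have m2 : x ^ 5 * y ^ 5 ≤ 1 / 64 * (x ^ 5 * y ^ 3) := by
    have e : x ^ 5 * y ^ 5 = y ^ 2 * (x ^ 5 * y ^ 3) := by ring
    rw [e]
    exact mul_le_mul_of_nonneg_right (by nlinarith [h.y1]) (by positivity)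
  have n1 : 0 ≤ x ^ 10 := by positivity
  have n2 : 0 ≤ x ^ 8 * y ^ 2 := by positivity
  have n3 : 0 ≤ x ^ 6 * y ^ 4 := by positivity
  have n4 : 0 ≤ x ^ 4 * y ^ 6 := by positivity
  have n5 : 0 ≤ x ^ 2 * y ^ 8 := by positivity
  have n6 : 0 ≤ y ^ 10 := by positivity
  have n7 : 0 ≤ x ^ 5 * y ^ 3 := by positivity
  unfold ENS FeI GeI
  simp only [ev_cons, ev_nil, mv, pow_zero]
  push_cast
  simp only [one_mul, mul_one, mul_assoc, mul_add, add_zero] at *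
  nlinarith [m1, m2, n1, n2, n3, n4, n5, n6, n7]

/-- **THE VALUE OF THE SHIFT FORM AT THE BASE OF ZONE I** -/
theorem V_NS (c : ZC) {A : ℝ} {B : ℂ} (hA : 0 ≤ A) (hA' : A ≤ 1 / 4) (hB : ‖B‖ ≤ 1 / 8) :
    |(PI c A B).NS (b0I A B) (z0I A B) - QNS A ‖B‖| ≤ ENS A ‖B‖ := by
  have hd : Dm A ‖B‖ := ⟨hA, hA', norm_nonneg _, hB⟩
  obtain ⟨f, g, h1, h2, h3⟩ := NS_ap c hA hA' hB
  refine le_trans ?_ (ENS_ge hd)
  rw [h1, QNS_eq]
  have e : f + Real.sqrt 3 * g - (ev A ‖B‖ FpI + Real.sqrt 3 * ev A ‖B‖ GpI) =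
      (f - ev A ‖B‖ FpI) + Real.sqrt 3 * (g - ev A ‖B‖ GpI) := by ring
  rw [e]
  refine (abs_add_le _ _).trans (add_le_add h2 ?_)
  rw [abs_mul, abs_of_nonneg (Real.sqrt_nonneg 3)]
  exact mul_le_mul_of_nonneg_left h3 (Real.sqrt_nonneg 3)

end Pool.Agent.Helper99.SH
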