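import Pool.Agent.Helper99.SH.TMD
import Pool.Agent.Helper95.SH.Cont1
import Pool.Agent.Helper20.RC.Link1w

/-!
# The shift form of trigonometric polynomials in the skeleton: link to `Par.NS`
-/

set_option autoImplicit false

open MeasureTheory Set Filter Topology

namespace Pool.Agent.Helper99.SH

open Helper49.LT hiding sg
open Helper49.RC (om Wgt)
open Helper56.RC (fc)
open Helper87.RC (BM fc_add fc_cmul)
open Helper95.RC (wc pc rc sc kq c1 c2 NF)
open Helper95.SH (Dat NS_lim)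
open Helper49.Sharp
open Pool.Agent.Helper20.RC (wR wR_wgt fc_one)
open Pool.Agent.Helper99.RC (ps ps_meas ps_abs NF_supp)

/-! ### trigonometric polynomials -/

theorem cee (t : ℝ) : (starRingEnd ℂ) (ee t) = ee (-t) := (ee_neg t).symm

theorem eep (t : ℝ) (n : ℕ) : ee t ^ n = ee ((n : ℝ) * t) := by
  unfold ee
  rw [← Complex.exp_nat_mul]
  congr 1
  push_cast
  ring

theorem rt_uv (A : ℝ) (B : ℂ) (x : RT) (t : ℝ) :
    rt ((A : ℂ) * ee (-3 * t)) (B * ee (-5 * t)) x = rt (A : ℂ) B x * ee ((hr x : ℝ) * t) := by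
  unfold rt
  simp only [map_mul, cee, mul_pow, eep]
  have e : ee ((hr x : ℝ) * t) = ee ((x.a : ℝ) * (-3 * t)) * ee ((x.a' : ℝ) * -(-3 * t)) *
      ee ((x.b : ℝ) * (-5 * t)) * ee ((x.b' : ℝ) * -(-5 * t)) := by
    rw [← ee_add, ← ee_add, ← ee_add]
    congr 1
    unfold hr
    push_cast
    ring
  rw [e]
  ring

/-- the trigonometric polynomial -/
noncomputable def tf (A : ℝ) (B : ℂ) (l : List RT) (t : ℝ) : ℂ := rv ((A : ℂ) * ee (-3 * t)) (B * ee (-5 * t)) l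

theorem bm_one : BM (fun _ : ℝ => (1 : ℂ)) 1 := ⟨measurable_const, fun _ => by simp⟩

theorem tf_cons (A : ℝ) (B : ℂ) (x : RT) (l : List RT) :
    tf A B (x :: l) = fun t => rt (A : ℂ) B x * (ee ((hr x : ℝ) * t) * 1) + tf A B l t := by
  funext t
  unfold tf
  rw [rv_cons, rt_uv, mul_one]

theorem bm_tf (A : ℝ) (B : ℂ) : ∀ l : List RT, ∃ C, BM (tf A B l) C
  | [] => ⟨0, measurable_const, fun _ => by simp [tf]⟩
  | x :: l => by
    obtain ⟨C, hC⟩ := bm_tf A B l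
    rw [tf_cons]
    exact ⟨_, ((Helper87.RC.BM.em bm_one (hr x)).cmul _).add hC⟩

theorem fc_tf (A : ℝ) (B : ℂ) (n : ℤ) : ∀ l : List RT, fc (tf A B l) n = hv A B n l
  | [] => by
    have e : tf A B [] = fun _ => (0 : ℂ) * 1 := by
      funext t
      simp [tf]
    rw [e, fc_cmul]
    simp [hv]
  | x :: l => by
    obtain ⟨C, hC⟩ := bm_tf A B l
    rw [tf_cons, fc_add ((Helper87.RC.BM.em bm_one (hr x)).cmul _) hC, fc_cmul, Helper87.RC.fc_ee,
      fc_one, fc_tf A B n l]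
    rw [show hv A B n (x :: l) = (if hr x = n then rt (A : ℂ) B x else 0) + hv A B n l from rfl]
    congr 1
    by_cases h : hr x = n
    · rw [if_pos h, if_pos (by omega), mul_one]
    · rw [if_neg h, if_neg (by omega), mul_zero]

/-! ### the rotations -/

theorem om_s3 : om = ((1 / 2 : ℚ) : ℂ) + ((1 / 2 : ℚ) : ℂ) * s3 := by
  rw [Helper95.RC.om_val]
  unfold s3
  push_cast
  ring

theorem omc_s3 : (starRingEnd ℂ) om = ((1 / 2 : ℚ) : ℂ) + ((-1 / 2 : ℚ) : ℂ) * s3 := by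
  rw [Helper95.RC.om_conj]
  unfold s3
  push_cast
  ring

theorem om2_s3 : om ^ 2 = ((-1 / 2 : ℚ) : ℂ) + ((1 / 2 : ℚ) : ℂ) * s3 := by
  rw [Helper95.RC.om_sq]
  unfold s3
  push_cast
  ring

theorem omc2_s3 : (starRingEnd ℂ) om ^ 2 = ((-1 / 2 : ℚ) : ℂ) + ((-1 / 2 : ℚ) : ℂ) * s3 := by
  rw [Helper95.RC.om_conj_sq]
  unfold s3
  push_cast
  ring

theorem kq_s3 : kq 2 * Complex.I = ((-1 / 4 : ℚ) : ℂ) + ((1 : ℚ) : ℂ) * s3 := by
  unfold kq s3
  push_cast
  linear_combination ((1 : ℂ) / 4) * Complex.I_sq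

theorem kqc_s3 : (starRingEnd ℂ) (kq 2) * Complex.I = ((1 / 4 : ℚ) : ℂ) + ((1 : ℚ) : ℂ) * s3 := by
  unfold kq s3
  rw [map_add, map_mul, Complex.conj_I, Complex.conj_ofReal, Complex.conj_ofReal]
  push_cast
  linear_combination (-(1 : ℂ) / 4) * Complex.I_sq

theorem ee_pi3 (m : ℤ) : ee (-(m : ℝ) * (Real.pi / 3)) = (((r1 m).1 : ℚ) : ℂ) + (((r1 m).2 : ℚ) : ℂ) * s3 := by
  have hper : ∀ k j : ℤ, ee (-((j + 6 * k : ℤ) : ℝ) * (Real.pi / 3)) = ee (-(j : ℝ) * (Real.pi / 3)) := by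
    intro k j
    have e1 : -((j + 6 * k : ℤ) : ℝ) * (Real.pi / 3) = -(j : ℝ) * (Real.pi / 3) + ((-k : ℤ) : ℝ) * (2 * Real.pi) := by
      push_cast
      ring
    rw [e1, ee_add, ee_int_mul, ee_two_pi, one_zpow, mul_one]
  have hdiv : m = m % 6 + 6 * (m / 6) := by omega
  have h1 : ee (-(m : ℝ) * (Real.pi / 3)) = ee (-((m % 6 : ℤ) : ℝ) * (Real.pi / 3)) := by
    conv_lhs => rw [hdiv]
    exact hper _ _
  rw [h1]
  have hpow : ∀ j : ℕ, ee (-((j : ℤ) : ℝ) * (Real.pi / 3)) = (starRingEnd ℂ) om ^ j := by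
    intro j
    have : (starRingEnd ℂ) om = ee (-(Real.pi / 3)) := by
      unfold om
      exact cee _
    rw [this, eep]
    congr 1
    push_cast
    ring
  have hc2 := omc2_s3
  have hc := omc_s3
  have hc3 : (starRingEnd ℂ) om ^ 3 = -1 := by
    rw [pow_succ, hc2, hc]
    push_cast
    linear_combination ((1 : ℂ) / 4) * s3_sq
  have hlt : m % 6 < 6 := Int.emod_lt_of_pos _ (by norm_num)
  have hge : 0 ≤ m % 6 := Int.emod_nonneg _ (by norm_num)
  unfold r1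
  interval_cases h : m % 6
  · have := hpow 0
    simp only [Nat.cast_zero, pow_zero] at this
    rw [this]
    simp
  · have := hpow 1
    simp only [Nat.cast_one, pow_one] at this
    rw [this, hc]
    simp
  · have := hpow 2
    simp only [Nat.cast_ofNat] at this
    rw [this, hc2]
    simp
  · have := hpow 3
    simp only [Nat.cast_ofNat] at this
    rw [this, hc3]
    simp
  · have := hpow 4
    simp only [Nat.cast_ofNat] at this
    rw [this, pow_succ, hc3, hc]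
    simp
    ring
  · have := hpow 5
    simp only [Nat.cast_ofNat] at this
    rw [this, show (5 : ℕ) = 3 + 2 from rfl, pow_add, hc3, hc2]
    simp
    ring

/-! ### the coefficients of the families -/

/-- the four coefficient sequences are given by the lists -/
structure Fl (A : ℝ) (B : ℂ) (D : Dt) (W p r s : ℤ → ℂ) : Prop where
  w : ∀ n, W n = hv A B n D.w
  p : ∀ n, p n = hv A B n D.p
  r : ∀ n, r n = Complex.I * hv A B n D.r
  s : ∀ n, s n = hv A B n D.s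

theorem c1_la {A : ℝ} {B : ℂ} {D : Dt} {W p r s : ℤ → ℂ} (h : Fl A B D W p r s) (m : ℤ) :
    c1 2 W p r s m = kv A B (la D m) := by
  unfold c1 la
  rw [kv_ro, kv_pk, kv_pk, kv_pk, kv_pk, kv_nil, h.w, h.p, h.r, h.s, ee_pi3, omc_s3, om_s3]
  have h1 := kq_s3
  push_cast
  push_cast at h1
  linear_combination (((r1 m).1 : ℂ) + ((r1 m).2 : ℂ) * s3) * hv A B (m - 1) D.r * h1

theorem c2_lb {A : ℝ} {B : ℂ} {D : Dt} {W p r s : ℤ → ℂ} (h : Fl A B D W p r s) (m : ℤ) :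
    c2 2 W p r s m = kv A B (lb D m) := by
  unfold c2 lb
  rw [kv_ro, kv_pk, kv_pk, kv_pk, kv_pk, kv_nil, h.w, h.p, h.r, h.s]
  have e0 : ee (-(m : ℝ) * (2 * Real.pi / 3)) = (((r1 (2 * m)).1 : ℚ) : ℂ) + (((r1 (2 * m)).2 : ℚ) : ℂ) * s3 := by
    rw [← ee_pi3]
    congr 1
    push_cast
    ring
  rw [e0, omc2_s3, om2_s3]
  have h1 := kqc_s3
  push_cast
  push_cast at h1
  linear_combination (((r1 (2 * m)).1 : ℂ) + ((r1 (2 * m)).2 : ℂ) * s3) * hv A B (m - 1) D.r * h1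

/-! ### the support -/

theorem hv_zero (A : ℝ) (B : ℂ) (n : ℤ) : ∀ l : List RT, (∀ t ∈ l, hr t ≠ n) → hv A B n l = 0
  | [], _ => rfl
  | t :: l, h => by
    unfold hv
    rw [if_neg (h t (by simp)), hv_zero A B n l (fun s hs => h s (by simp [hs])), add_zero]

theorem c_zero {A : ℝ} {B : ℂ} {D : Dt} {W p r s : ℤ → ℂ} (h : Fl A B D W p r s) {l : List ℤ}
    (hl : chk D l = true) {m : ℤ} (hm : m ∉ l) : c1 2 W p r s m = 0 ∧ c2 2 W p r s m = 0 := by
  unfold chk at hl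
  simp only [Bool.and_eq_true, List.all_eq_true, decide_eq_true_eq] at hl
  obtain ⟨⟨⟨h1, h2⟩, h3⟩, h4⟩ := hl
  have key : ∀ q : List RT, (∀ t ∈ q, hr t + 1 ∈ l) → hv A B (m - 1) q = 0 := by
    intro q hq
    apply hv_zero
    intro t ht he
    apply hm
    have := hq t ht
    rw [he, sub_add_cancel] at this
    exact this
  unfold c1 c2
  rw [h.w, h.p, h.r, h.s, key _ h1, key _ h2, key _ h3, key _ h4]
  simp

/-! ### the shift form -/

/-- the shift form of the skeleton is the closed form -/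
theorem NS_eq (P : Par) (A : ℝ) (B : ℂ) (D : Dt) (b z : ℝ → ℂ) (d : ℝ) (hw : P.w = wR P.eta 0 0)
    (he : ‖P.eta‖ ≤ 1 / 4) (hps : P.ps = ps d A Real.pi) (hd : |d| + |A| ≤ 1) (hD : Dat b z)
    (hF : Fl A B D (wc P.w) (pc P.w b) (rc P.w b) (sc P.w z)) (l : List ℤ) (hl : chk D l = true) :
    P.NS b z = Pool.Agent.Helper99.RC.NS d A Real.pi l.toFinset (c1 2 (wc P.w) (pc P.w b) (rc P.w b) (sc P.w z))
      (c2 2 (wc P.w) (pc P.w b) (rc P.w b) (sc P.w z)) := by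
  have hwg : Wgt P.w := by
    rw [hw]
    refine wR_wgt ?_
    simp only [norm_zero, add_zero]
    linarith
  have hb : ∀ φ, |P.ps φ| ≤ Real.pi / 3 := by
    intro φ
    rw [hps]
    have := ps_abs d A Real.pi φ
    linarith [Real.pi_gt_three]
  have h1 := NS_lim (q := 2) hwg hD (ψ := P.ps) (by rw [hps]; exact ps_meas _ _ _) hb
  have h2 : P.NS b z = Helper44.RCG.N0 (Helper44.GQ.AAQ P.w 2 b) (Helper44.GQ.BBQ P.w 2 b) (Helper49.RC.vvS P.w z)
        - 1 / Real.pi * (∫ φ in (0 : ℝ)..(2 * Real.pi), ∫ u in (0 : ℝ)..(P.ps φ),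
          (Helper44.GQ.F1Q P.w 2 b z (φ + u / 2) *
            (starRingEnd ℂ) (Helper44.GQ.F2Q P.w 2 b z (φ - u / 2))).im) := rfl
  rw [← h2] at h1
  refine tendsto_nhds_unique h1 ?_
  have h3 : ∃ N0 : ℕ, ∀ m ∈ l.toFinset, |m| ≤ (N0 : ℤ) := by
    refine ⟨∑ m ∈ l.toFinset, m.natAbs, fun m hm => ?_⟩
    have h4 := Finset.single_le_sum (f := fun m : ℤ => m.natAbs) (fun i _ => Nat.zero_le _) hm
    have h5 : |m| = (m.natAbs : ℤ) := Int.abs_eq_natAbs m
    rw [h5]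
    exact_mod_cast h4
  obtain ⟨N0, hN0⟩ := h3
  refine tendsto_const_nhds.congr' ?_
  filter_upwards [Filter.eventually_ge_atTop N0] with N hN
  symm
  rw [hps]
  refine NF_supp d A Real.pi _ _ ?_ ?_ ?_
  · intro m hm
    exact (c_zero hF hl (by simpa using hm)).1
  · intro m hm
    exact (c_zero hF hl (by simpa using hm)).2
  · intro m hm
    exact (hN0 m hm).trans (by exact_mod_cast hN)

end Pool.Agent.Helper99.SH
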