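import Pool.Agent.Helper99.SH.VNSKD

/-!
# The evaluation of the whole form of zone I: block 1
-/

set_option autoImplicit false
set_option maxRecDepth 100000

namespace Pool.Agent.Helper99.SH

set_option maxHeartbeats 8000000 in
theorem blkI1 : dbl (dps dPI) LLI (bkI 0) SI0 = SI1 := by decide +kernel

end Pool.Agent.Helper99.SH
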